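import Mathlib

/-!
# The congruence topology on solvable subgroups of `Out (F_n)`: definitions and targets

Congruence topology on `Out (F_n)`: the kernels of `Out (F_n) → Out (F_n / K)`, `K` a characteristic
subgroup of finite index, are a basis of neighbourhoods of `1`.  Final theorem (`S_final`): on a
subgroup of `Out (F_n)` which is finitely generated and virtually abelian (by
Bestvina-Feighn-Handel: on every solvable subgroup) it induces the full profinite topology,
and such a subgroup is closed.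

Every target is a closed proposition `S_xxx` with its proof in the docstring.
-/

set_option autoImplicit false

namespace Pool.Agent.Run7.h632.CA

/-- `φ` acts as an inner automorphism modulo `K`. -/
def InnerMod {G : Type} [Group G] (K : Subgroup G) (φ : MulAut G) : Prop :=
  ∃ g : G, ∀ x : G, φ x * (g * x * g⁻¹)⁻¹ ∈ K

/-- the group of the inner automorphisms -/
def Inn (G : Type) [Group G] : Subgroup (MulAut G) := (MulAut.conj : G →* MulAut G).range

/-- the free group of rank `n` -/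
abbrev F (n : ℕ) : Type := FreeGroup (Fin n)

/-! ## Part 1: units -/

/-- **artin** (Artin-Rees for abelian groups).  Proof: `E` is a finitely generated `ℤ`-module, `S` a
submodule.  `Ideal.exists_pow_inf_eq_pow_smul` for the ideal `(e)` gives `k` with
`e ^ n E ∩ S = e ^ (n - k) (e ^ k E ∩ S)` for `n ≥ k`; take `n = k + 1`, `e' = e ^ (k + 1)`.
(Or: `S / S ^ e` is finite; or use the structure theorem.) -/
def S_artin : Prop := ∀ (E : Type) [CommGroup E] [Group.FG E] (S : Subgroup E) (e : ℕ), 0 < e →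
  ∃ e' : ℕ, 0 < e' ∧ ∀ x : E, x ^ e' ∈ S → ∃ y ∈ S, y ^ e = x ^ e'

/-- **cheb.** Let `u` be a unit of a number field, `r ^ N = u`, `σ ζ = ζ`, `σ r ≠ r`.  Then for some
prime `q` and some `f : 𝓞 K → F̄_q` no `f (u w ^ N)`, `w` a unit, is `1`.
Proof: copy `Pool.Agent.TH954.P.cheb_pow_int` (`Pool/Agent/TH954/P/Pow.lean`, first 120 lines): it
gives `L' ⊇ K(ζ, r)` Galois over `ℚ`, `τ` in its Galois group restricting `σ`, elements `R`, `Z` of
`𝓞 L'` (`R ^ N = u`, `Z` is `ζ`), and a prime `q` not dividing a given integer and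
`φ : 𝓞 L' → F̄_q` with `φ (τ x) = φ x ^ q` for all `x`.  Let `f = φ ∘ (𝓞 K → 𝓞 L')`.  Then
`f x ^ q = f x` (as `τ` fixes `K`), `φ Z ^ q = φ Z`, and `φ R ^ q = φ (τ R) ≠ φ R` (`q` does not divide
the norm of `τ R - R`), so `φ R ^ (q-1) ≠ 1`.  If `f (u w ^ N) = 1` then `(φ R * f w) ^ N = 1`; `φ Z`
is a primitive `N`-th root of unity (`q` does not divide `N`), so `φ R * f w` is a power of `φ Z`
and `(φ R * f w) ^ (q-1) = 1`; as `f w ^ (q-1) = 1` we get `φ R ^ (q-1) = 1`, a contradiction. -/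
def S_cheb : Prop := ∀ (K : Type) [Field K] [NumberField K] (N : ℕ), 1 ≤ N →
  ∀ (ζ : AlgebraicClosure K), IsPrimitiveRoot ζ N →
  ∀ (σ : AlgebraicClosure K ≃ₐ[K] AlgebraicClosure K), σ ζ = ζ →
  ∀ (u : (NumberField.RingOfIntegers K)ˣ) (r : AlgebraicClosure K),
    r ^ N = algebraMap K (AlgebraicClosure K) ((u : NumberField.RingOfIntegers K) : K) →
    σ r ≠ r →
    ∃ (q : ℕ) (k : Type) (_ : Field k) (_ : CharP k q) (f : NumberField.RingOfIntegers K →+* k),
      q.Prime ∧ ∀ w : (NumberField.RingOfIntegers K)ˣ,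
        f ((u * w ^ N : (NumberField.RingOfIntegers K)ˣ) : NumberField.RingOfIntegers K) ≠ 1

/-- **chev** (Chevalley's theorem on units).  Proof from `S_cheb`.  Let `D ≥ 1` be as in
`Pool.Agent.TH954.P.gal : T_gal`, `x` a prime not dividing `e`, `t = x ^ D - 1 ≥ 1` (so `x`
does not divide `t`).  Choose a prime `l > t` and a maximal ideal `𝔮` of `𝓞 K` with `l ∈ 𝔮`, let `k₀` be
the (finite) residue field, `|k₀| - 1 = x ^ a * W` with `x` not dividing `W`, and `N = e * t * W`,
coprime to `x`.  Let `ζ` be a primitive `N`-th root of unity in `AlgebraicClosure K`; by `gal` there is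
`τ` with `τ ζ = ζ ^ (x ^ D) = ζ ^ (t + 1)`.  Call `u` good if for `r` with `r ^ N = u` all `σ` with
`σ ζ = ζ` fix `r`.  The group of the units mod `N`-th powers is finite (units are finitely
generated); choose `u_1, …, u_s`, representatives of the classes containing a bad unit, each bad
(if `u` is bad, so is every `u w ^ N`: the root is `r w`), with `q_i` and
`f_i` from `S_cheb`.  Let `m = l * ∏ q_i`.  Let `m ∣ u - 1`.  If `u` is bad, `u = u_i w ^ N` for
some `i` and `f_i u = 1` as `f_i (q_i) = 0`, a contradiction.  So `u` is good and by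
`Pool.Agent.TH954.P.sah : T_sah` `y ^ N = u ^ t` for some `y` in `K`; `y` is a unit of `𝓞 K`.  So
`z = u * (y ^ (e * W))⁻¹` has `z ^ t = 1`.  In `k₀`: `1 = z̄ * (ȳ ^ W) ^ e`, so `z̄ ^ (x ^ a) = 1`
because `ȳ ^ (x ^ a * W) = 1`, and `z̄ ^ t = 1`, `gcd (x ^ a, t) = 1`, so `z̄ = 1`.  Since `z ^ t = 1`,
`l` does not divide `t` and `z ≡ 1 mod 𝔮`, `z = 1` (if `z ≠ 1` then
`0 = (z ^ t - 1) / (z - 1) = 1 + z + ⋯ + z ^ (t-1) ≡ t mod 𝔮`).  So `u = (y ^ W) ^ e`. -/
def S_chev : Prop := ∀ (K : Type) [Field K] [NumberField K] (e : ℕ), 1 ≤ e →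
  ∃ m : ℕ, 1 ≤ m ∧ ∀ u : (NumberField.RingOfIntegers K)ˣ,
    (m : NumberField.RingOfIntegers K) ∣ (u : NumberField.RingOfIntegers K) - 1 →
    ∃ w : (NumberField.RingOfIntegers K)ˣ, w ^ e = u

/-- **homs.** A torsion-free finite commutative ring has enough homomorphisms to one ring of integers.
Proof.  Let `Q̄ = AlgebraicClosure ℚ`.  (1) If `λ x = 0` for all `λ : R → Q̄`, then `x` is nilpotent:
otherwise the multiplicative set `{k x ^ j : k ≥ 1}` does not contain `0` (torsion-free), so some prime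
`P` is disjoint from it (`Ideal.exists_le_prime_disjoint`); `R / P` is a domain containing `ℤ`,
integral over `ℤ`, so its fraction field is algebraic over `ℚ` and embeds in `Q̄`
(`IsAlgClosed.lift`); the image of `x` is not `0`, a contradiction.  (2) There are finitely many
homomorphisms `R → Q̄`: each is determined by the images of finitely many generators of the
`ℤ`-module `R`, which are roots of fixed monic polynomials.  (3) Let `L` be the field generated by
all these images, a number field; each `λ` has values in `𝓞 L` because `R` is integral over `ℤ`. -/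
def S_homs : Prop := ∀ (R : Type) [CommRing R] [Module.Finite ℤ R] [Module.IsTorsionFree ℤ R],
  ∃ (L : Type) (_ : Field L) (_ : NumberField L) (r : ℕ)
    (f : Fin r → R →+* NumberField.RingOfIntegers L), ∀ x : R, (∀ i, f i x = 0) → IsNilpotent x

/-- `V` has finite index in `B`: `V ≤ B` and some `e`, and only finitely many cosets.  We use
`V.relIndex B ≠ 0`. -/
def FinIn {G : Type} [Group G] (V B : Subgroup G) : Prop := V ≤ B ∧ V.relIndex B ≠ 0

/-- **semis** (the semisimple part).  Proof from `S_artin`, `S_chev`, `S_homs`.  Let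
`f i : R → 𝓞 L` be as in `S_homs`, `E = Fin r → (𝓞 L)ˣ`, a finitely generated abelian group, `φ : Rˣ → E`
the map given by the `f i`.  Let `e ≥ 1` with `b ^ e ∈ V` for `b ∈ B` (the index).  `S_artin` for
`S = φ (B)`, `e` gives `e'`, `S_chev` for `L`, `e'` gives `m`.  If `b ∈ B`, `m ∣ b - 1`, then all
`f i b ≡ 1 mod m`, so `φ b = w ^ e'`, `w ∈ E`, and `φ b = φ c ^ e`, `c ∈ B`.  So
`b * (c ^ e)⁻¹ ∈ B`, and `f i (b * (c ^ e)⁻¹ - 1) = 0` for all `i`; it is in `V` by hypothesis, and
`c ^ e ∈ V`. -/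
def S_semis : Prop := ∀ (R : Type) [CommRing R] [Module.Finite ℤ R] [Module.IsTorsionFree ℤ R]
  (B V : Subgroup Rˣ), FinIn V B → (∀ b ∈ B, IsNilpotent ((b : R) - 1) → b ∈ V) →
  ∃ m : ℕ, 1 ≤ m ∧ ∀ b ∈ B, (m : R) ∣ (b : R) - 1 → b ∈ V

/-- **unip** (the unipotent part).  Proof from `S_artin`.  Let `𝔫` be the nilradical (finitely
generated as `R` is Noetherian, so `𝔫 ^ N = 0` for some `N`), and `J i = {x : k x ∈ 𝔫 ^ i for some
k ≥ 1}`, an ideal, saturated (`k x ∈ J i` implies `x ∈ J i`), `J i * J j ≤ J (i + j)`, `J N = 0`,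
`J 1 = 𝔫`.  Show by descending induction on `i`, `1 ≤ i ≤ N`: for all `V` there is `m` with: `b ∈ B`,
`b - 1 ∈ J i`, `m ∣ b - 1` imply `b ∈ V`.  For `i = N`: `b = 1`.  Step from `i + 1` to `i`: let `m₁`
be for `V` and `i + 1`, `V₁ = {b ∈ V : m₁ ∣ b - 1}`; it has finite index in `B`, so `b ^ e ∈ V₁`
for all `b ∈ B`, some `e ≥ 1` (`Rˣ → (R / m₁ R)ˣ` has finite image).
`b ↦ b - 1` is a homomorphism from `N_i = {b ∈ B : b - 1 ∈ J i}` to the finitely generated abelian
group `J i / J (i + 1)`; let `S` be its image and `e'` from `S_artin` for `S`, `e`.  If `b ∈ N_i`,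
`m₁ e' ∣ b - 1`, then `b - 1 = e' x` with `x ∈ J i` (saturated), so the class of `b - 1` is
`e' [x] = e [c - 1]`, `c ∈ N_i`, so `d = b * (c ^ e)⁻¹` has `d - 1 ∈ J (i + 1)`.
`c ^ e ∈ V₁`, so `m₁ ∣ d - 1`, so `d ∈ V` and `b = d * c ^ e ∈ V`. -/
def S_unip : Prop := ∀ (R : Type) [CommRing R] [Module.Finite ℤ R] [Module.IsTorsionFree ℤ R]
  (B V : Subgroup Rˣ), FinIn V B →
  ∃ m : ℕ, 1 ≤ m ∧ ∀ b ∈ B, IsNilpotent ((b : R) - 1) → (m : R) ∣ (b : R) - 1 → b ∈ V

/-- **units.** Proof from `S_semis`, `S_unip`.  Let `m₁` be as in `S_unip` for `V`,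
`V₁ = {b ∈ V : m₁ ∣ b - 1}` (finite index in `B`), `N = {b ∈ B : b - 1 nilpotent}`, a subgroup,
`V₂ = V₁ N`, of finite index in `B`.  `S_semis` for `V₂` gives `m₂`.  If `m₁ m₂ ∣ b - 1` then
`b = v u`, `v ∈ V₁`, `u ∈ N`, and `u = v⁻¹ b` has `m₁ ∣ u - 1`, so `u ∈ V`. -/
def S_units : Prop := ∀ (R : Type) [CommRing R] [Module.Finite ℤ R] [Module.IsTorsionFree ℤ R]
  (B V : Subgroup Rˣ), FinIn V B →
  ∃ m : ℕ, 1 ≤ m ∧ ∀ b ∈ B, (m : R) ∣ (b : R) - 1 → b ∈ V

/-- **mat** (abelian subgroups of `GL_n (ℤ)`).  Proof from `S_units`.  Let `R` be the double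
centraliser of `B` in the ring of `n × n` matrices over `ℤ` (`Subring.centralizer` twice).  `R` is
commutative, as `B` is contained in its centraliser `C`, so `C(C) ≤ C` and elements of `C(C)` commute.
It is a submodule of `ℤ ^ (n × n)`, finite and torsion-free.  The elements of `B` and
their inverses are in `R`, so `B` is (isomorphic to) a subgroup of `Rˣ`.  If `b - 1 = m x`, `x` an
integral matrix, `m ≥ 1`, then `x ∈ R` because `b - 1 ∈ R`.  Apply `S_units`. -/
def S_mat : Prop := ∀ (n : ℕ) (B V : Subgroup (Matrix.GeneralLinearGroup (Fin n) ℤ)),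
  (∀ a ∈ B, ∀ b ∈ B, a * b = b * a) → FinIn V B →
  ∃ m : ℕ, 1 ≤ m ∧ ∀ b ∈ B,
    (∀ i j, (m : ℤ) ∣ ((b : Matrix (Fin n) (Fin n) ℤ) - 1) i j) → b ∈ V

/-- **abel** (the action on the abelianization).  Proof from `S_mat`.  For `φ ∈ Aut (F_n)` let `θ φ`
be the matrix of the exponent sums: entry `(i, j)` is the exponent sum of `x_i` in `φ (x_j)`;
`θ : MulAut (F n) →* GL_n (ℤ)` (or its transpose).  `θ` kills the inner automorphisms, so `θ (A)` is
abelian.  Let `V ≤ A` of finite index containing the elements of `A` which act trivially on `F_n^ab`;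
then `θ (V)` has finite index in `θ (A)` and `θ a ∈ θ (V)` implies `a ∈ V`.  `S_mat` gives `m`; let `K`
be the set of all `x` all of whose exponent sums are divisible by `m`, characteristic (it is the kernel
of `F_n → F_n^ab ⊗ ℤ / m`) and of finite index.  If `a x x⁻¹ ∈ K` for all `x` then `θ a ≡ 1 mod m`. -/
def S_abel : Prop := ∀ (n : ℕ) (A : Subgroup (MulAut (F n))),
  (∀ a ∈ A, ∀ b ∈ A, a * b * a⁻¹ * b⁻¹ ∈ Inn (F n)) →
  ∀ V : Subgroup A, V.FiniteIndex →
    (∀ a : A, (∀ x : F n, a.1 x * x⁻¹ ∈ commutator (F n)) → a ∈ V) →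
    ∃ K : Subgroup (F n), K.Characteristic ∧ K.FiniteIndex ∧
      ∀ a : A, (∀ x, a.1 x * x⁻¹ ∈ K) → a ∈ V

/-! ## Part 2: power series -/

/-- the free associative algebra over `ℚ` on `X_0, …, X_{n-1}` -/
abbrev T (n : ℕ) : Type := MonoidAlgebra ℚ (FreeMonoid (Fin n))

/-- power series over it; the variable `X_i` will always come with the power series variable -/
abbrev P (n : ℕ) : Type := PowerSeries (T n)

/-- the letter `X_i` -/
noncomputable def X {n : ℕ} (i : Fin n) : T n := MonoidAlgebra.single (FreeMonoid.of i) 1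

/-- `X_i t` as a power series -/
noncomputable def Xt {n : ℕ} (i : Fin n) : P n := PowerSeries.C (X i) * PowerSeries.X

/-- `1 + X_i t` -/
noncomputable def U {n : ℕ} (i : Fin n) : (P n)ˣ where
  val := 1 + PowerSeries.C (X i) * PowerSeries.X
  inv := PowerSeries.mk (fun j => (- X i) ^ j)
  val_inv := by
    ext1 m
    rw [add_mul, one_mul, mul_assoc, map_add, PowerSeries.coeff_C_mul, PowerSeries.coeff_mk]
    cases m with
    | zero => simp
    | succ m =>
      rw [PowerSeries.coeff_succ_X_mul, PowerSeries.coeff_mk, PowerSeries.coeff_one, pow_succ']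
      simp
  inv_val := by
    ext1 m
    rw [mul_add, mul_one, ← mul_assoc, map_add, PowerSeries.coeff_mk]
    cases m with
    | zero => simp
    | succ m =>
      rw [PowerSeries.coeff_succ_mul_X, PowerSeries.coeff_mul_C, PowerSeries.coeff_mk,
        PowerSeries.coeff_one, pow_succ]
      simp

/-- the Magnus map `x_i ↦ 1 + X_i t` -/
noncomputable def mu (n : ℕ) : F n →* P n := (Units.coeHom _).comp (FreeGroup.lift U)

/-- the Magnus map of the group algebra -/
noncomputable def mg (n : ℕ) : MonoidAlgebra ℚ (F n) →ₐ[ℚ] P n := MonoidAlgebra.lift ℚ _ _ (mu n)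

/-- an element of degree `j` -/
def Deg {n : ℕ} (j : ℕ) (x : T n) : Prop := ∀ m : FreeMonoid (Fin n), x.coeff m ≠ 0 → m.length = j

/-- the coefficient of `t ^ j` has degree `j`, for all `j` -/
def Hom {n : ℕ} (f : P n) : Prop := ∀ j, Deg j (PowerSeries.coeff j f)

/-- `φ` acts as the conjugation by `h` modulo degree `> c`, for some `h` over `ℚ` with constant term
`1` -/
def Nil {n : ℕ} (c : ℕ) (φ : MulAut (F n)) : Prop :=
  ∃ h : P n, Hom h ∧ PowerSeries.coeff 0 h = 1 ∧
    ∀ g : F n, ∀ j ≤ c, PowerSeries.coeff j (mu n (φ g) * h) = PowerSeries.coeff j (h * mu n g)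

/-- **mu1.** `mu g` is homogeneous with constant coefficient `1`.  Proof: `Hom f`, `Hom g` imply
`Hom (f * g)` (products of elements of degree `i`, `j` have degree `i + j`); induction on `g`
(`FreeGroup.induction_on` or closure of the units), for the inverse of `1 + X_i t` use its formula. -/
def S_mu1 : Prop := ∀ (n : ℕ) (g : F n), Hom (mu n g) ∧ PowerSeries.coeff 0 (mu n g) = 1

/-- **mu2.** The coefficient of `t` in `mu g` is a homomorphism to `(T, +)`, and every homomorphism
from `F n` to the additive group of a rational vector space takes equal values on `g`, `g'` if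
`mu g`, `mu g'` have the same coefficient of `t`; moreover this is the case exactly if `g`, `g'`
have the same image in the abelianization.  Proof: the coefficient of `t` in `mu g` is `∑ e_i(g) X_i`
with `e_i` the exponent sum; `D g = ∑ e_i(g) D(x_i)` for each homomorphism `D`.  Exponent sums
determine the image in the abelianization (`FreeAbelianGroup` or induction). -/
def S_mu2 : Prop := ∀ (n : ℕ),
  (∀ g g' : F n, PowerSeries.coeff 1 (mu n (g * g')) =
    PowerSeries.coeff 1 (mu n g) + PowerSeries.coeff 1 (mu n g')) ∧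
  (∀ i : Fin n, PowerSeries.coeff 1 (mu n (FreeGroup.of i)) = X i) ∧
  (∀ (D : F n → T n), (∀ g g', D (g * g') = D g + D g') → ∀ g g' : F n,
    PowerSeries.coeff 1 (mu n g) = PowerSeries.coeff 1 (mu n g') → D g = D g')

/-- **inj.** The Magnus map of the group algebra is injective.  Proof: this is
`Pool.Agent.H129R3.mag_injective` for the trivial action of `ℤ` on `J = Fin n` (make a local
instance `AddAction ℤ (Fin n)` with `k +ᵥ j = j`): the monoid homomorphism
`FreeMonoid (Fin n) → WMon (Fin n)`, `i ↦ ⟨[i], 0⟩` gives a ring homomorphism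
`T n → MonoidAlgebra ℚ (WMon (Fin n))` and (`PowerSeries.map`) `P n → PowerSeries …`; composed with
`mg n` it is `mag ℚ` (check on the generators).  So `mg n` is injective. -/
def S_inj : Prop := ∀ n : ℕ, Function.Injective (mg n)

/-- **cen.** If `n ≥ 2`, an element of degree `j ≥ 1` commuting with all `X_i` is `0`.  Proof: let
`m` be a word (of length `j ≥ 1`) with nonzero coefficient in `x`.  The coefficient of `X_i x` at
the word `i m` is that of `x` at `m`, so `i m` has nonzero coefficient in `x X_i`, so `i m` ends with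
the letter `i`, so `m` ends with `i`.  This for `i = 0` and `i = 1`, a contradiction. -/
def S_cen : Prop := ∀ n : ℕ, 2 ≤ n → ∀ (j : ℕ) (x : T n), 1 ≤ j → Deg j x →
  (∀ i : Fin n, X i * x = x * X i) → x = 0

/-- **uniq.** Uniqueness of the conjugating element.  Proof from `S_mu1`, `S_mu2`, `S_cen` by strong
induction on `j < c`: `j = 0` is the hypothesis.  Let `1 ≤ j < c`, all lower coefficients of `d` zero.
The coefficient of `t ^ (j+1)` in `mu (φ x_i) d = d mu x_i` gives
`X_i d_j + d_{j+1} = d_{j+1} + d_j X_i` (the coefficients of `t` in `mu (φ x_i)` and in `mu x_i` are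
equal to `X_i`). -/
def S_uniq : Prop := ∀ n : ℕ, 2 ≤ n → ∀ (c : ℕ) (φ : MulAut (F n)) (d : P n),
  (∀ g, PowerSeries.coeff 1 (mu n (φ g)) = PowerSeries.coeff 1 (mu n g)) →
  Hom d → PowerSeries.coeff 0 d = 0 →
  (∀ g : F n, ∀ j ≤ c, PowerSeries.coeff j (mu n (φ g) * d) = PowerSeries.coeff j (d * mu n g)) →
  ∀ j < c, PowerSeries.coeff j d = 0

/-- **grp.** `Nil c` is a subgroup containing the inner automorphisms, decreasing in `c`, and `Nil 1`
means trivial action on the abelianization.  Proof.  Product: if `h` is for `φ` and `h'` for `ψ` then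
`h * h'` is for `φ * ψ`: `mu (φ (ψ g)) h h' ≡ h mu (ψ g) h' ≡ h h' mu g` modulo `t ^ (c+1)`
(congruence mod `t ^ (c+1)` is compatible with products: `PowerSeries.trunc` or the ideal).
Inverse: `h` has an inverse `h'` (constant term `1`;
`PowerSeries.invOfUnit`) and `h'` is homogeneous: `h'_j = - ∑_{i ≥ 1} h_i h'_{j-i}` (strong
induction); from `mu (φ (φ⁻¹ g)) h ≡ h mu (φ⁻¹ g)` get `h' mu g ≡ mu (φ⁻¹ g) h'`.  Inner: for
`φ = conj w` take `h = mu w` (`S_mu1`).  `Nil 1 φ` gives
`coeff 1 (mu (φ g)) + coeff 1 h = coeff 1 h + coeff 1 (mu g)`. -/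
def S_grp : Prop := ∀ n : ℕ,
  (∀ (c : ℕ) (φ ψ : MulAut (F n)), Nil c φ → Nil c ψ → Nil c (φ * ψ)) ∧
  (∀ (c : ℕ) (φ : MulAut (F n)), Nil c φ → Nil c φ⁻¹) ∧
  (∀ (c : ℕ) (w : F n), Nil c (MulAut.conj w)) ∧
  (∀ (c c' : ℕ) (φ : MulAut (F n)), c ≤ c' → Nil c' φ → Nil c φ) ∧
  (∀ (c : ℕ) (φ : MulAut (F n)), 1 ≤ c → Nil c φ →
    ∀ g, PowerSeries.coeff 1 (mu n (φ g)) = PowerSeries.coeff 1 (mu n g))

/-- **low.** An automorphism acting as an inner automorphism modulo `γ_{c+1}` is in `Nil c`.  Proof.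
(1) If `g ∈ (⊤ : Subgroup (F n)).lowerCentralSeries c` (this is `γ_{c+1}`) then the coefficients of
`t ^ j` in `mu g`, `1 ≤ j ≤ c`, are zero: induction on `c`, the set of such `g` is a subgroup, and if
`mu a = 1 + a'`, `mu b = 1 + b'`, `a'` of order `≥ c + 1`, `b'` of order `≥ 1`, then
`mu ⁅a, b⁆ - 1 = (mu a mu b - mu b mu a) mu (b a)⁻¹ = (a' b' - b' a') mu (b a)⁻¹`.  (2) Let
`φ x = l_x w x w⁻¹` with `l_x ∈ γ_{c+1}`, and `h = mu w`: `mu (φ x) h = mu (l_x) mu (w x)`. -/
def S_low : Prop := ∀ (n c : ℕ) (φ : MulAut (F n)),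
  InnerMod ((⊤ : Subgroup (F n)).lowerCentralSeries c) φ → Nil c φ

/-- **root** (torsion-free quotients).  Proof from `S_mu1`, `S_mu2`, `S_uniq`, `S_grp` by induction on
`c` (from `1`).  Let `Nil (c+1) (φ ^ k)`; then `Nil c (φ ^ k)` and by induction `Nil c φ`; let `h` be
for it.  Let `D g` be the coefficient of `t ^ (c+1)` in `mu (φ g) h - h mu g`.  Since the lower
coefficients of it vanish, `D (g g') = D g + D g'`:
`mu (φ (g g')) h - h mu (g g') = mu (φ g) (mu (φ g') h - h mu g') + (mu (φ g) h - h mu g) mu g'`.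
By `S_mu2` `D (φ g) = D g`.  By induction on `k`: the coefficients of `t ^ j`, `j ≤ c`, in
`mu (φ ^ k g) h ^ k - h ^ k mu g` vanish and that of `t ^ (c+1)` is `k D g`
(`mu (φ ^ (k+1) g) h ^ (k+1) - h ^ (k+1) mu g = (mu (φ ^ k (φ g)) h ^ k - h ^ k mu (φ g)) h +
h ^ k (mu (φ g) h - h mu g)`).  Let `h'` be for `Nil (c+1) (φ ^ k)` and `d = h ^ k - h'`.  By `S_uniq`
(for `φ ^ k` and `c`; it acts trivially on the coefficient of `t`) `d_j = 0` for `j < c`.  The
coefficient of `t ^ (c+1)` in `mu (φ ^ k g) d - d mu g` is `g_1 d_c - d_c g_1` with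
`g_1 = coeff 1 (mu g)`, and it is `k D g`.  So `h - (1/k) d_c t ^ c` shows `Nil (c+1) φ`. -/
def S_root : Prop := ∀ n : ℕ, 2 ≤ n → ∀ (c k : ℕ) (φ : MulAut (F n)), 1 ≤ c → 1 ≤ k →
  (∀ g, PowerSeries.coeff 1 (mu n (φ g)) = PowerSeries.coeff 1 (mu n g)) →
  Nil c (φ ^ k) → Nil c φ

/-- **lim.** Proof from `S_uniq`, `S_grp`.  Let `h c` be for `Nil c φ`.  By `S_uniq` for
`d = h (c+1) - h c`, the coefficients of `t ^ j` in `h c`, `c > j`, do not depend on `c`.  Let `H` be
the series with these coefficients. -/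
def S_lim : Prop := ∀ n : ℕ, 2 ≤ n → ∀ φ : MulAut (F n), (∀ c, Nil c φ) →
  ∃ h : P n, Hom h ∧ PowerSeries.coeff 0 h = 1 ∧ ∀ g : F n, mu n (φ g) * h = h * mu n g

/-- **expand.** Right expansions.  Proof.  Existence: a nonempty word has a last letter; the `i`-th
component of `f` has as coefficient of `t ^ j` the element of `T` whose coefficient at `m` is that of
`coeff (j+1) f` at `m * of i` (`Finsupp.comapDomain`, or linear maps `T → T`).  Uniqueness:
`(∑ b_i X_i) = 0` in `T` implies `b_i = 0` (compare coefficients at `m * of i`; see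
`Pool.Agent.H129R3.zeta_indep`, `series_indep`). -/
def S_expand : Prop := ∀ n : ℕ,
  (∀ f : P n, Hom f → PowerSeries.coeff 0 f = 0 → ∃ a : Fin n → P n, f = ∑ i, a i * Xt i) ∧
  (∀ a : Fin n → P n, ∑ i, a i * Xt i = 0 → ∀ i, a i = 0)

/-- **fox.** Fox calculus, on both sides and for any generating family.  Proof.  (1) Right: the set of
`g` with `mu g - 1 ∈ ∑ range (mg) Xt i` is a subgroup: `mu (g g') - 1 = mu g (mu g' - 1) + (mu g - 1)`,
`mu g⁻¹ - 1 = - mu g⁻¹ (mu g - 1)`.  (2) Left: for `φ ∈ Aut (F_n)`, the elements `φ x_k` generate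
`F_n`; the set of `g` with `g - 1 ∈ ∑_k (φ x_k - 1) ℚ[F_n]` is a subgroup; if `mg f` has
constant coefficient `0`, then `f = ∑ f_g (g - 1)` because the sum of the coefficients `f_g` is `0`
(the constant coefficient of `mu g` is `1`). -/
def S_fox : Prop := ∀ n : ℕ,
  (∀ g : F n, ∃ a : Fin n → MonoidAlgebra ℚ (F n), mu n g - 1 = ∑ i, mg n (a i) * Xt i) ∧
  (∀ (φ : MulAut (F n)) (f : MonoidAlgebra ℚ (F n)), PowerSeries.coeff 0 (mg n f) = 0 →
    ∃ a : Fin n → MonoidAlgebra ℚ (F n),
      mg n f = ∑ k, (mu n (φ (FreeGroup.of k)) - 1) * mg n (a k))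

/-- **left.** Left expansions in a basis are unique.  Proof from `S_mu1`, `S_mu2`: strong induction on
`j`: all `coeff j (g k)` vanish.  If all lower coefficients vanish, the coefficient of `t ^ (j+1)` in
the relation is `∑_k (∑_l M l k X_l) y_k = 0`, `y_k = coeff j (g k)`, where
`∑_l M l k X_l = coeff 1 (mu (φ x_k))`, `M l k` the exponent sum of `x_l` in `φ x_k`.  So
`∑_k M l k y_k = 0` for each `l` (a word has a unique first letter), and `M` is invertible (the
inverse is the matrix of `φ⁻¹`; `coeff 1 (mu (φ g))` is the image of `coeff 1 (mu g)` under the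
linear map given by `M`), so `y = 0`. -/
def S_left : Prop := ∀ (n : ℕ) (φ : MulAut (F n)) (g : Fin n → P n),
  ∑ k, (mu n (φ (FreeGroup.of k)) - 1) * g k = 0 → ∀ k, g k = 0

/-- **poly.** The conjugating element is in the group algebra.  Proof from `S_mu1`, `S_expand`,
`S_fox`, `S_left`.  Write `u j = φ x_j`, `h = 1 + ∑ h_i Xt i` (`S_expand`) and
`mu (u j) - 1 = ∑ mg (d j i) Xt i` (`S_fox`).  Then `mu (u j) h = h mu (x_j) = h + h Xt j` gives, by
uniqueness of right expansions, `mg (d j i) + mu (u j) h_i = h_i + δ_ij h`.  Given `i` choose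
`j ≠ i`: `(mu (u j) - 1) h_i = - mg (d j i)`.  The right side has constant coefficient `0`, so by
`S_fox` (2) it is `∑_k (mu (u k) - 1) mg (a k)`; by `S_left`, `h_i = mg (a j)`.  So `h` is in the
range of `mg`. -/
def S_poly : Prop := ∀ n : ℕ, 2 ≤ n → ∀ (φ : MulAut (F n)) (h : P n), Hom h →
  PowerSeries.coeff 0 h = 1 → (∀ g : F n, mu n (φ g) * h = h * mu n g) → ∃ f, h = mg n f

/-- **inner.** Proof from `S_inj`.  `f` is not `0` and `single (φ g) 1 * f = f * single g 1` by
injectivity, so the support `S` of `f` (finite, nonempty) is stable under `s ↦ φ g s g⁻¹`, for each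
`g`.  Let `s ∈ S`.  This permutation of `S` has `k`-th power `1` with `k = |S| !`, so
`φ (g) ^ k s g ^ (-k) = s`, that is `φ (g) ^ k = (s g s⁻¹) ^ k`, and `φ g = s g s⁻¹`
(`pow_left_injective` in `FreeGroup`). -/
def S_inner : Prop := ∀ (n : ℕ) (φ : MulAut (F n)) (f : MonoidAlgebra ℚ (F n)), f ≠ 0 →
  (∀ g : F n, mu n (φ g) * mg n f = mg n f * mu n g) → φ ∈ Inn (F n)

/-- **chain.** Proof.  The `ℤ`-submodules `M c` of the finitely generated abelian group `E` have ranks
decreasing in `c`, so the rank is constant for `c ≥ c₀`.  For `c ≥ c₀` the quotient `M c₀ / M c` has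
rank `0`, is torsion, so for `x ∈ M c₀` some `x ^ k ∈ M c`, `k ≥ 1`, and `x ∈ M c` by hypothesis.
So `M c₀ = M c` for all `c ≥ c₀`, and `M c₀ = ⨅ M c = ⊥`. -/
def S_chain : Prop := ∀ (E : Type) [CommGroup E] [Group.FG E] (M : ℕ → Subgroup E), Antitone M →
  (∀ c, ∀ x ∈ M 0, ∀ k : ℕ, 1 ≤ k → x ^ k ∈ M c → x ∈ M c) → (⨅ c, M c) = ⊥ → ∃ c, M c = ⊥

/-- **stab.** Proof from `S_grp`, `S_root`, `S_lim`, `S_poly`, `S_inner`, `S_chain`.  `E = A / Inn`
(`Inn` as a normal subgroup of `A`) is commutative and finitely generated.  Let `M c` be the image of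
`{a ∈ A : Nil (c+1) a}`; because the inner automorphisms are in `Nil (c+1)`, the class of `a` is in
`M c` iff `Nil (c+1) a`.  The hypothesis on powers is `S_root`; `⨅ M c = ⊥` by `S_lim`, `S_poly`,
`S_inner`. -/
def S_stab : Prop := ∀ n : ℕ, 2 ≤ n → ∀ A : Subgroup (MulAut (F n)), Inn (F n) ≤ A → A.FG →
  (∀ a ∈ A, ∀ b ∈ A, a * b * a⁻¹ * b⁻¹ ∈ Inn (F n)) →
  ∃ c : ℕ, ∀ a ∈ A, Nil c a → a ∈ Inn (F n)

/-! ## Part 3: the theorem -/

/-- **csp.** The congruence subgroup property of abelian subgroups of `Out (F_n)`.  Proof from `S_abel`,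
`S_stab`, `S_low`: apply `Pool.Agent.N66.TJ.outer_general` with `Γ = ⊤`, `c` of `S_stab`; its
hypothesis `hyp` is `S_abel` (`lay id ⊤ ⁅⊤, ⊤⁆` is the group of the automorphisms acting trivially on
the abelianization), its hypothesis `h` is `S_low` and `S_stab`. -/
def S_csp : Prop := ∀ n : ℕ, 2 ≤ n → ∀ A : Subgroup (MulAut (F n)), Inn (F n) ≤ A → A.FG →
  (∀ a ∈ A, ∀ b ∈ A, a * b * a⁻¹ * b⁻¹ ∈ Inn (F n)) →
  ∀ V : Subgroup (MulAut (F n)), Inn (F n) ≤ V → FinIn V A →
    ∃ K : Subgroup (F n), K.Characteristic ∧ K.FiniteIndex ∧ ∀ a ∈ A, InnerMod K a → a ∈ V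

/-- **gros** (Grossman's theorem).  Proof from `S_csp`.  Suppose `φ ∉ Inn`.  Let `A` be generated by
`Inn` and `φ` (finitely generated, commutators in `Inn`, as `A / Inn` is cyclic).  If no power
`φ ^ m`, `m ≥ 1`, is in `Inn`, let `V` be generated by `Inn` and `φ ^ 2`, otherwise `V = Inn`.  In both
cases `V` has finite index in `A` and `φ ∉ V`.  `S_csp` gives `K`; `φ` acts as an inner automorphism
modulo `K`, so `φ ∈ V`, a contradiction. -/
def S_gros : Prop := ∀ n : ℕ, 2 ≤ n → ∀ φ : MulAut (F n),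
  (∀ K : Subgroup (F n), K.Characteristic → K.FiniteIndex → InnerMod K φ) → φ ∈ Inn (F n)

/-- **ext.** If `b` normalises ... : let `A₀ / Inn` be abelian and let `b` be in the closure of `A₀` in
the congruence topology.  Then `b ∈ A₀`.  Proof from `S_csp`, `S_gros`.  The automorphisms acting
as inner automorphisms modulo `K` form a normal subgroup `N_K` of `Aut (F_n)` for characteristic `K`.
For `c ∈ A₀` and each `K`, `b = a ν`, `a ∈ A₀`, `ν ∈ N_K`, so
`b c b⁻¹ c⁻¹ ∈ a c a⁻¹ c⁻¹ N_K` (`Inn ≤ N_K`), so it is in `N_K` for all `K`, so in `Inn` by `S_gros`.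
So `A₁`, generated by `A₀` and `b`, is abelian modulo `Inn` and finitely generated.  If `b ∉ A₀` there
is `V` with `A₀ ≤ V ≤ A₁`, of finite index in `A₁`, `b ∉ V` (finitely generated abelian groups
`A₁ / Inn`: the quotient `A₁ / A₀` is cyclic, generated by the class of `b`, and not trivial; as
in `S_gros`).  `S_csp` for `A₁`, `V` gives `K`; `b = a ν` with `ν = a⁻¹ b ∈ A₁ ∩ N_K ≤ V`, so
`b ∈ V`, a contradiction. -/
def S_ext : Prop := ∀ n : ℕ, 2 ≤ n → ∀ A : Subgroup (MulAut (F n)), Inn (F n) ≤ A → A.FG →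
  (∀ a ∈ A, ∀ b ∈ A, a * b * a⁻¹ * b⁻¹ ∈ Inn (F n)) →
  ∀ b : MulAut (F n), (∀ K : Subgroup (F n), K.Characteristic → K.FiniteIndex →
    ∃ a ∈ A, InnerMod K (a⁻¹ * b)) → b ∈ A

/-- **final.** Let `A / Inn (F_n)` be a finitely generated virtually abelian subgroup of `Out (F_n)`
(`A₀ / Inn` abelian of finite index).  (1) Every subgroup of finite index of it contains its
intersection with a congruence subgroup.  (2) It is closed in the congruence topology.
Proof from `S_csp`, `S_ext`.  (2) `A` is a finite union of cosets `a_i A₀`.  If `b` is in the closure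
of `A`, then for some `i`, `b ∈ a_i A₀ N_K` for all `K` (otherwise choose `K_i` for each `i` and take
the intersection, characteristic of finite index; `N_K` is decreasing in `K`); so `a_i⁻¹ b` is in the
closure of `A₀`, so in `A₀` by `S_ext`.  (1) `S_csp` for `A₀`, `V ∩ A₀` gives `K₀`.  For each of the
finitely many `a_i ∉ A₀`, `a_i⁻¹` is not in the closure of `A₀` by `S_ext`, so there is `K_i` with
`InnerMod K_i (a_i c)` for no `c ∈ A₀` (`a_i c = ν` means `a_i⁻¹ = c ν⁻¹`).
Let `K = K₀ ∩ ⋂ K_i`: if `a ∈ A`, `InnerMod K a`, then `a ∈ A₀`, so `a ∈ V`.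
(`A₀` is finitely generated because it has finite index in `A`: `Subgroup.fg_of_index_ne_zero`.) -/
def S_final : Prop := ∀ n : ℕ, 2 ≤ n → ∀ A A₀ : Subgroup (MulAut (F n)), Inn (F n) ≤ A₀ →
  FinIn A₀ A → A.FG → (∀ a ∈ A₀, ∀ b ∈ A₀, a * b * a⁻¹ * b⁻¹ ∈ Inn (F n)) →
  (∀ V : Subgroup (MulAut (F n)), Inn (F n) ≤ V → FinIn V A →
    ∃ K : Subgroup (F n), K.Characteristic ∧ K.FiniteIndex ∧ ∀ a ∈ A, InnerMod K a → a ∈ V) ∧
  (∀ b : MulAut (F n), (∀ K : Subgroup (F n), K.Characteristic → K.FiniteIndex →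
    ∃ a ∈ A, InnerMod K (a⁻¹ * b)) → b ∈ A)

end Pool.Agent.Run7.h632.CA
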