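import Pool.Agent.Run7.h632.CA.Defs

/-! Project CA (helper632), piece artin (helper24). -/

set_option autoImplicit false

namespace Pool.Agent.Run7.h632.CA

/-- the torsion of a finitely generated abelian group has finite exponent -/
theorem fg_torsion_exp (Q : Type) [CommGroup Q] [Group.FG Q] :
    ∃ k : ℕ, 0 < k ∧ ∀ (q : Q) (j : ℕ), 0 < j → q ^ j = 1 → q ^ k = 1 := by
  have : Module.Finite ℤ (Additive Q) := Module.Finite.iff_addGroup_fg.mpr inferInstance
  set T : Submodule ℤ (Additive Q) := Submodule.torsion ℤ (Additive Q) with hT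
  have : Module.Finite ℤ T := inferInstance
  have : Finite T := Module.finite_of_fg_torsion T Submodule.torsion_isTorsion
  refine ⟨Nat.card T, Nat.card_pos, ?_⟩
  intro q j hj hq
  have hm : Additive.ofMul q ∈ T := by
    rw [hT, Submodule.mem_torsion_iff]
    refine ⟨⟨(j : ℤ), mem_nonZeroDivisors_of_ne_zero (by exact_mod_cast hj.ne')⟩, ?_⟩
    change (j : ℤ) • Additive.ofMul q = 0
    rw [natCast_zsmul, ← ofMul_pow, hq, ofMul_one]
  have h : Nat.card T • (⟨Additive.ofMul q, hm⟩ : T) = 0 := card_nsmul_eq_zero'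
  have h' := congrArg Subtype.val h
  exact h'

theorem artin : S_artin := by
  intro E _ _ S e he
  obtain ⟨k, hk, hk'⟩ := fg_torsion_exp (E ⧸ S)
  refine ⟨k * e, Nat.mul_pos hk he, ?_⟩
  intro x hx
  refine ⟨x ^ k, ?_, by rw [← pow_mul]⟩
  have h1 : ((x : E ⧸ S)) ^ (k * e) = 1 := by
    rw [← QuotientGroup.mk_pow]
    exact (QuotientGroup.eq_one_iff _).2 hx
  have h2 := hk' (x : E ⧸ S) (k * e) (Nat.mul_pos hk he) h1
  rw [← QuotientGroup.mk_pow] at h2
  exact (QuotientGroup.eq_one_iff _).1 h2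

end Pool.Agent.Run7.h632.CA
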