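import Pool.Agent.Run7.h632.CA.Defs

set_option autoImplicit false

namespace Pool.Agent.Run7.h632.CA

theorem cen_last {n : ℕ} {j : ℕ} {x : T n} (hj : 1 ≤ j) (hx : Deg j x)
    (h : ∀ i : Fin n, X i * x = x * X i) (m : FreeMonoid (Fin n)) (hm : x.coeff m ≠ 0)
    (i : Fin n) : (FreeMonoid.toList m).getLast? = some i := by
  have hlen := hx m hm
  have h1 : (X i * x).coeff (FreeMonoid.of i * m) = x.coeff m := by
    unfold X
    rw [MonoidAlgebra.coeff_single_mul_mul, one_mul]
  have h2 : (x * X i).coeff (FreeMonoid.of i * m) ≠ 0 := by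
    rw [← h i, h1]
    exact hm
  have h3 : ∃ d : FreeMonoid (Fin n), d * FreeMonoid.of i = FreeMonoid.of i * m := by
    by_contra hcon
    push Not at hcon
    apply h2
    unfold X
    exact MonoidAlgebra.coeff_mul_single_of_forall_mul_ne _ _ hcon
  obtain ⟨d, hd⟩ := h3
  have h4 : FreeMonoid.toList d ++ [i] = i :: FreeMonoid.toList m := by
    have := congrArg FreeMonoid.toList hd
    simpa using this
  have hne : FreeMonoid.toList m ≠ [] := by
    intro h0
    have : m.length = 0 := by
      show (FreeMonoid.toList m).length = 0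
      rw [h0]; rfl
    omega
  have h5 : (i :: FreeMonoid.toList m).getLast? = some i := by
    rw [← h4]; simp
  rw [List.getLast?_cons] at h5
  rw [List.getLast?_eq_some_getLast hne] at h5 ⊢
  simpa using h5

theorem cen : S_cen := by
  intro n hn j x hj hx h
  by_contra hne
  have : ∃ m, x.coeff m ≠ 0 := by
    by_contra hcon
    push Not at hcon
    apply hne
    apply MonoidAlgebra.coeff_injective
    ext m
    simpa using hcon m
  obtain ⟨m, hm⟩ := this
  have h0 := cen_last hj hx h m hm ⟨0, by omega⟩
  have h1 := cen_last hj hx h m hm ⟨1, by omega⟩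
  rw [h0] at h1
  simp at h1

end Pool.Agent.Run7.h632.CA
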