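import Pool.Agent.TH954.P.Pow
import Pool.Agent.Run7.h632.CA.Defs

/-! Project CA (helper632), piece cheb (helper24). -/

set_option autoImplicit false
set_option linter.unusedSectionVars false

open IsDedekindDomain NumberField Pool.Agent.W401.Cheb

namespace Pool.Agent.Run7.h632.CA

open Pool.Agent.TH954

theorem cheb : S_cheb := by
  intro K _ _ N hN ζ hζ σ hσ u r hr hne
  classical
  have hN0 : N ≠ 0 := by omega
  obtain ⟨L', _, _, _, i', τ, κ', hκi', hκτ, hκs'⟩ := Pool.Agent.TH120.Sec.exists_L K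
    (({ζ, r} : Finset (AlgebraicClosure K)) : Set (AlgebraicClosure K))
    (Finset.finite_toSet _) σ
  have hcint : IsIntegral ℤ (algebraMap K (AlgebraicClosure K) ((u : 𝓞 K) : K)) :=
    (u : 𝓞 K).2.map (IsScalarTower.toAlgHom ℤ K (AlgebraicClosure K))
  have hrint : IsIntegral ℤ r :=
    IsIntegral.of_pow (by omega : 0 < N) (by rw [hr]; exact hcint)
  obtain ⟨R, hR⟩ := exists_int_preimage κ' hrint (hκs' _ (Finset.mem_coe.2
    (Finset.mem_insert_of_mem (Finset.mem_singleton_self r))))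
  obtain ⟨Z, hZ⟩ := exists_int_preimage κ' (x := ζ) (IsIntegral.of_pow (by omega : 0 < N) (by
    rw [hζ.pow_eq_one]; exact isIntegral_one)) (hκs' _ (Finset.mem_coe.2
      (Finset.mem_insert_self _ _)))
  set iO : 𝓞 K →+* 𝓞 L' := RingOfIntegers.mapRingHom i' with hiO
  have hiOc : ∀ x : 𝓞 K, κ' (iO x : L') = algebraMap K (AlgebraicClosure K) (x : K) :=
    fun x => hκi' x
  have hRN : R ^ N = iO (u : 𝓞 K) := by
    apply RingOfIntegers.coe_injective
    apply κ'.injective
    rw [map_pow, map_pow, hR, hr, hiOc]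
  have hZN : Z ^ N = 1 := by
    apply RingOfIntegers.coe_injective
    apply κ'.injective
    rw [map_pow, map_pow, hZ, hζ.pow_eq_one, map_one, map_one]
  have hτZ : τ • Z = Z := by
    apply RingOfIntegers.coe_injective
    apply κ'.injective
    change κ' (τ (Z : L')) = κ' (Z : L')
    rw [hκτ, hZ, hσ]
  have hτR : τ • R ≠ R := by
    intro h
    apply hne
    have h1 : κ' ((τ • R : 𝓞 L') : L') = κ' (R : L') := by rw [h]
    change κ' (τ (R : L')) = κ' (R : L') at h1
    rw [hκτ, hR] at h1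
    exact h1
  -- the element which has to be a unit
  have hE0 : τ • R - R ≠ 0 := sub_ne_zero.2 hτR
  obtain ⟨m, hm, hm'⟩ := Pool.Agent.W723.SecC.nz L' (τ • R - R) hE0
  obtain ⟨p, ⟨hp, hxp⟩, hpgt⟩ := (infinite_frob L' τ).exists_gt (max m N)
  have hpm : ¬ p ∣ m := fun hd => by
    have h1 := Nat.le_of_dvd hm hd
    omega
  have : Fact p.Prime := ⟨hp⟩
  obtain ⟨φ, hφ⟩ : ∃ φ : 𝓞 L' →+* AlgebraicClosure (ZMod p), HasFrob p φ τ := by
    unfold xp at hxp
    rw [dif_pos hp] at hxp
    by_contra h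
    push Not at h
    apply hxp
    rw [Nat.card_eq_zero]
    left
    exact ⟨fun x => h x.1 x.2⟩
  have hφE : φ (τ • R - R) ≠ 0 := by
    refine hm' _ φ ?_
    rw [Ne, CharP.cast_eq_zero_iff (AlgebraicClosure (ZMod p)) p]
    exact hpm
  have hφR : φ R ^ p ≠ φ R := by
    intro h
    apply hφE
    rw [map_sub, hφ R, h, sub_self]
  have hφi : ∀ x : 𝓞 K, φ (iO x) ^ p = φ (iO x) := by
    intro x
    have h1 := hφ (iO x)
    have h2 : τ • (iO x) = iO x := by
      apply RingOfIntegers.coe_injective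
      apply κ'.injective
      change κ' (τ (iO x : L')) = _
      rw [hκτ, hiOc, σ.commutes]
    rw [h2] at h1
    exact h1.symm
  -- the order of the root of unity
  have hpN : (N : AlgebraicClosure (ZMod p)) ≠ 0 := by
    rw [Ne, CharP.cast_eq_zero_iff (AlgebraicClosure (ZMod p)) p]
    exact fun hd => by
      have h1 := Nat.le_of_dvd (by omega) hd
      omega
  have hφZ : φ Z ^ p = φ Z := by
    have h1 := hφ Z
    rw [hτZ] at h1
    exact h1.symm
  have hNp : N ∣ p - 1 := by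
    have hprim : IsPrimitiveRoot (φ Z) N := by
      have h1 : IsPrimitiveRoot Z N := by
        refine IsPrimitiveRoot.of_map_of_injective (f := κ'.comp (algebraMap (𝓞 L') L')) ?_
          (κ'.injective.comp RingOfIntegers.coe_injective)
        change IsPrimitiveRoot (κ' (Z : L')) N
        rw [hZ]
        exact hζ
      have hNe : NeZero ((N : ℕ) : AlgebraicClosure (ZMod p)) := ⟨hpN⟩
      have h2 : (Polynomial.cyclotomic N (𝓞 L')).IsRoot Z := h1.isRoot_cyclotomic (by omega)
      rw [← Polynomial.isRoot_cyclotomic_iff, ← Polynomial.map_cyclotomic N φ,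
        Polynomial.IsRoot.def, Polynomial.eval_map, Polynomial.eval₂_hom, h2.eq_zero, map_zero]
    rw [hprim.eq_orderOf]
    apply orderOf_dvd_of_pow_eq_one
    have h0 : φ Z ≠ 0 := hprim.ne_zero hN0
    have h6 : φ Z ^ (p - 1) * φ Z = 1 * φ Z := by
      rw [← pow_succ, Nat.sub_add_cancel hp.one_le, one_mul]
      exact hφZ
    exact mul_right_cancel₀ h0 h6
  refine ⟨p, AlgebraicClosure (ZMod p), inferInstance, inferInstance, φ.comp iO, hp, ?_⟩
  intro w hw
  have hw0 : φ (iO (w : 𝓞 K)) ≠ 0 := by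
    have h1 : IsUnit (φ (iO (w : 𝓞 K))) := (w.isUnit.map iO).map φ
    exact h1.ne_zero
  have h7 : (φ R * φ (iO (w : 𝓞 K))) ^ N = 1 := by
    rw [mul_pow, ← map_pow, hRN]
    rw [RingHom.comp_apply, Units.val_mul, Units.val_pow_eq_pow_val, map_mul, map_mul, map_pow,
      map_pow] at hw
    exact hw
  have h8 : (φ R * φ (iO (w : 𝓞 K))) ^ (p - 1) = 1 := by
    obtain ⟨e, he⟩ := hNp
    rw [he, pow_mul, h7, one_pow]
  have h9 : (φ R * φ (iO (w : 𝓞 K))) ^ p = φ R * φ (iO (w : 𝓞 K)) := by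
    have : (φ R * φ (iO (w : 𝓞 K))) ^ p =
      (φ R * φ (iO (w : 𝓞 K))) ^ (p - 1) * (φ R * φ (iO (w : 𝓞 K))) := by
      rw [← pow_succ, Nat.sub_add_cancel hp.one_le]
    rw [this, h8, one_mul]
  rw [mul_pow, hφi] at h9
  exact hφR (mul_right_cancel₀ hw0 h9)

end Pool.Agent.Run7.h632.CA
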