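import Pool.Agent.TH954.P.Gal
import Pool.Agent.TH954.P.Sah
import Pool.Agent.Run7.h632.CA.Defs

/-! Project CA (helper632), piece chev (helper24). -/

set_option autoImplicit false

open NumberField

namespace Pool.Agent.Run7.h632.CA

theorem finite_units_mod (K : Type) [Field K] [NumberField K] (N : ℕ) (hN : 1 ≤ N) :
    Finite ((𝓞 K)ˣ ⧸ (powMonoidHom N : (𝓞 K)ˣ →* (𝓞 K)ˣ).range) := by
  have : Group.FG (𝓞 K)ˣ := Group.fg_iff_monoid_fg.2 inferInstance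
  apply CommGroup.finite_of_fg_isMulTorsion
  intro q
  induction q using QuotientGroup.induction_on with
  | H z =>
    rw [isOfFinOrder_iff_pow_eq_one]
    refine ⟨N, hN, ?_⟩
    rw [← QuotientGroup.mk_pow, QuotientGroup.eq_one_iff]
    exact ⟨z, rfl⟩

theorem not_isUnit_prime (K : Type) [Field K] [NumberField K] (l : ℕ) (hl : l.Prime) :
    ¬ IsUnit ((l : ℕ) : 𝓞 K) := by
  intro h
  have h1 : IsUnit (Algebra.norm ℤ ((l : ℕ) : 𝓞 K)) := h.map (Algebra.norm ℤ)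
  have h2 : ((l : ℕ) : 𝓞 K) = algebraMap ℤ (𝓞 K) (l : ℤ) := by simp
  rw [h2, Algebra.norm_algebraMap] at h1
  have h3 : 0 < Module.finrank ℤ (𝓞 K) := Module.finrank_pos
  have h4 := (isUnit_pow_iff h3.ne').1 h1
  exact (Nat.prime_iff_prime_int.1 hl).not_isUnit h4

/-- the last step: a root of unity congruent to one -/
theorem root_eq_one (K : Type) [Field K] [NumberField K] (l t : ℕ) (hl : l.Prime)
    (hlt : Nat.Coprime l t) (z : 𝓞 K) (hz : z ^ t = 1)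
    (hz1 : z - 1 ∈ Ideal.span {((l : ℕ) : 𝓞 K)}) : z = 1 := by
  by_contra hne
  have h1 : (∑ i ∈ Finset.range t, z ^ i) * (z - 1) = 0 := by
    rw [geom_sum_mul, hz, sub_self]
  have h2 : ∑ i ∈ Finset.range t, z ^ i = 0 := by
    rcases mul_eq_zero.1 h1 with h | h
    · exact h
    · exact absurd (sub_eq_zero.1 h) hne
  have h3 : ((t : ℕ) : 𝓞 K) ∈ Ideal.span {((l : ℕ) : 𝓞 K)} := by
    have h4 : ∀ i : ℕ, z ^ i - 1 ∈ Ideal.span {((l : ℕ) : 𝓞 K)} := by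
      intro i
      rw [← geom_sum_mul]
      exact Ideal.mul_mem_left _ _ hz1
    have h5 : ∑ i ∈ Finset.range t, (z ^ i - 1) ∈ Ideal.span {((l : ℕ) : 𝓞 K)} :=
      Ideal.sum_mem _ (fun i _ => h4 i)
    rw [Finset.sum_sub_distrib, h2, zero_sub] at h5
    simpa using h5
  have h6 : (1 : 𝓞 K) ∈ Ideal.span {((l : ℕ) : 𝓞 K)} := by
    have h7 : ((l : ℕ) : 𝓞 K) ∈ Ideal.span {((l : ℕ) : 𝓞 K)} := Ideal.mem_span_singleton_self _
    have h8 : IsCoprime (l : ℤ) (t : ℤ) := Nat.isCoprime_iff_coprime.2 hlt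
    obtain ⟨A, B, hAB⟩ := h8
    have h9 : (1 : 𝓞 K) = (A : 𝓞 K) * ((l : ℕ) : 𝓞 K) + (B : 𝓞 K) * ((t : ℕ) : 𝓞 K) := by
      have := congrArg (fun n : ℤ => (n : 𝓞 K)) hAB
      push_cast at this
      rw [this]
    rw [h9]
    exact Ideal.add_mem _ (Ideal.mul_mem_left _ _ h7) (Ideal.mul_mem_left _ _ h3)
  rw [Ideal.mem_span_singleton] at h6
  exact not_isUnit_prime K l hl (isUnit_of_dvd_one h6)

theorem chev (h : S_cheb) : S_chev := by
  intro K _ _ e he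
  classical
  obtain ⟨D, hD, hgal⟩ := Pool.Agent.TH954.P.gal K
  obtain ⟨x, hx1, hxp⟩ := Nat.exists_infinite_primes (e + 1)
  have hxe : ¬ x ∣ e := fun hd => by
    have := Nat.le_of_dvd (by omega) hd
    omega
  obtain ⟨t, htx⟩ : ∃ t, x ^ D = t + 1 := ⟨x ^ D - 1, by
    have := Nat.one_lt_pow (by omega : D ≠ 0) hxp.one_lt
    omega⟩
  have ht : 1 ≤ t := by
    have := Nat.one_lt_pow (by omega : D ≠ 0) hxp.one_lt
    omega
  have hxt : Nat.Coprime x t := by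
    rw [Nat.Prime.coprime_iff_not_dvd hxp]
    intro hd
    have h1 : x ∣ t + 1 := htx ▸ dvd_pow_self x (by omega : D ≠ 0)
    have h2 : x ∣ 1 := (Nat.dvd_add_right hd).1 h1
    exact hxp.one_lt.ne' (Nat.dvd_one.1 h2)
  obtain ⟨l, hl1, hlp⟩ := Nat.exists_infinite_primes (t + 1)
  have hlt : Nat.Coprime l t := by
    rw [Nat.Prime.coprime_iff_not_dvd hlp]
    intro hd
    have := Nat.le_of_dvd (by omega) hd
    omega
  set q : Ideal (𝓞 K) := Ideal.span {((l : ℕ) : 𝓞 K)} with hq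
  have hq0 : q ≠ ⊥ := by
    rw [hq, Ne, Ideal.span_singleton_eq_bot]
    exact_mod_cast hlp.ne_zero
  have hqfin : Finite (𝓞 K ⧸ q) := Ideal.finiteQuotientOfFreeOfNeBot q hq0
  set c0 := Nat.card (𝓞 K ⧸ q)ˣ with hc0
  have hc0ne : c0 ≠ 0 := Nat.card_pos.ne'
  obtain ⟨a, W, hW, hcW⟩ := Nat.exists_eq_pow_mul_and_not_dvd hc0ne x hxp.ne_one
  have hW0 : W ≠ 0 := fun h0 => hW (h0 ▸ dvd_zero x)
  set N := e * t * W with hNdef
  have hN : 1 ≤ N := Nat.mul_pos (Nat.mul_pos (by omega) (by omega)) (by omega)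
  have hxN : Nat.Coprime x N :=
    Nat.Coprime.mul_right (Nat.Coprime.mul_right ((Nat.Prime.coprime_iff_not_dvd hxp).2 hxe) hxt)
      ((Nat.Prime.coprime_iff_not_dvd hxp).2 hW)
  have hNe : NeZero N := ⟨by omega⟩
  have hNe' : NeZero ((N : ℕ) : AlgebraicClosure K) := ⟨by exact_mod_cast (by omega : N ≠ 0)⟩
  obtain ⟨ζ, hζ⟩ := HasEnoughRootsOfUnity.exists_primitiveRoot (AlgebraicClosure K) N
  obtain ⟨τ, hτ⟩ := hgal x N hN hxN ζ hζ
  rw [htx] at hτ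
  -- good units
  have hclaim : ∀ c : (𝓞 K)ˣ ⧸ (powMonoidHom N : (𝓞 K)ˣ →* (𝓞 K)ˣ).range, ∃ mc : ℕ, 1 ≤ mc ∧
      ∀ u : (𝓞 K)ˣ, (QuotientGroup.mk u = c) → ((mc : ℕ) : 𝓞 K) ∣ (u : 𝓞 K) - 1 →
        ∀ r : AlgebraicClosure K,
          r ^ N = algebraMap K (AlgebraicClosure K) ((u : 𝓞 K) : K) →
          ∀ σ : AlgebraicClosure K ≃ₐ[K] AlgebraicClosure K, σ ζ = ζ → σ r = r := by
    intro c
    by_cases hb : ∃ u0 : (𝓞 K)ˣ, QuotientGroup.mk u0 = c ∧ ∃ r : AlgebraicClosure K,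
          r ^ N = algebraMap K (AlgebraicClosure K) ((u0 : 𝓞 K) : K) ∧
          ∃ σ : AlgebraicClosure K ≃ₐ[K] AlgebraicClosure K, σ ζ = ζ ∧ σ r ≠ r
    · obtain ⟨u0, hu0, r, hr, σ, hσ, hne⟩ := hb
      obtain ⟨p, k, _, _, f, hp, hf⟩ := h K N hN ζ hζ σ hσ u0 r hr hne
      refine ⟨p, hp.one_le, fun u hu hd => ?_⟩
      exfalso
      have h1 : (QuotientGroup.mk u0 : (𝓞 K)ˣ ⧸ (powMonoidHom N : (𝓞 K)ˣ →* (𝓞 K)ˣ).range) =
          QuotientGroup.mk u := by rw [hu0, hu]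
      rw [QuotientGroup.eq] at h1
      obtain ⟨w, hw⟩ := h1
      have hw' : u0 * w ^ N = u := by
        have h2 : w ^ N = u0⁻¹ * u := hw
        rw [h2, mul_inv_cancel_left]
      apply hf w
      rw [hw']
      obtain ⟨s, hs⟩ := hd
      have h3 : (u : 𝓞 K) = 1 + ((p : ℕ) : 𝓞 K) * s := by rw [← hs]; ring
      rw [h3, map_add, map_mul, map_one, map_natCast, CharP.cast_eq_zero, zero_mul, add_zero]
    · refine ⟨1, le_rfl, fun u hu _ r hr σ hσ => ?_⟩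
      by_contra hne
      exact hb ⟨u, hu, r, hr, σ, hσ, hne⟩
  choose mc hmc1 hmc using hclaim
  have hfin := finite_units_mod K N hN
  have hft : Fintype ((𝓞 K)ˣ ⧸ (powMonoidHom N : (𝓞 K)ˣ →* (𝓞 K)ˣ).range) :=
    Fintype.ofFinite _
  refine ⟨l * ∏ c, mc c, Nat.mul_pos hlp.pos (Finset.prod_pos (fun c _ => hmc1 c)), ?_⟩
  intro u hu
  have hlu : ((l : ℕ) : 𝓞 K) ∣ (u : 𝓞 K) - 1 := by
    refine dvd_trans ?_ hu
    rw [Nat.cast_mul]
    exact dvd_mul_right _ _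
  have hgood := hmc (QuotientGroup.mk u) u rfl (by
    refine dvd_trans ?_ hu
    rw [Nat.cast_mul]
    refine dvd_mul_of_dvd_right ?_ _
    exact_mod_cast (Nat.cast_dvd_cast (Finset.dvd_prod_of_mem mc (Finset.mem_univ _)) :
      ((mc (QuotientGroup.mk u) : ℕ) : 𝓞 K) ∣ ((∏ c, mc c : ℕ) : 𝓞 K)))
  obtain ⟨r, hr⟩ := IsAlgClosed.exists_pow_nat_eq
    (algebraMap K (AlgebraicClosure K) ((u : 𝓞 K) : K)) (by omega : 0 < N)
  have huK : ((u : 𝓞 K) : K) ≠ 0 := by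
    intro h0
    exact u.ne_zero (RingOfIntegers.coe_injective
      (h0.trans (map_zero (algebraMap (𝓞 K) K)).symm))
  obtain ⟨y, hy⟩ := Pool.Agent.TH954.P.sah K N hN ζ hζ ((u : 𝓞 K) : K) r huK hr
    (hgood r hr) τ t hτ
  -- y is a unit
  have hyint : IsIntegral ℤ y := IsIntegral.of_pow (by omega : 0 < N) (by
    rw [hy]
    exact IsIntegral.pow (u : 𝓞 K).2 t)
  obtain ⟨y1, hy1⟩ : ∃ y1 : 𝓞 K, (y1 : K) = y := ⟨⟨y, hyint⟩, rfl⟩
  have hy1N : y1 ^ N = (u : 𝓞 K) ^ t := by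
    apply RingOfIntegers.coe_injective
    rw [map_pow, map_pow]
    change (y1 : K) ^ N = ((u : 𝓞 K) : K) ^ t
    rw [hy1]
    exact hy
  have hy1u : IsUnit y1 := by
    rw [← isUnit_pow_iff (by omega : N ≠ 0), hy1N]
    exact u.isUnit.pow t
  obtain ⟨y', hy'⟩ := hy1u
  have hyN : y' ^ N = u ^ t := by
    apply Units.ext
    rw [Units.val_pow_eq_pow_val, Units.val_pow_eq_pow_val, hy', hy1N]
  set z : (𝓞 K)ˣ := u * (y' ^ (e * W))⁻¹ with hz
  have hzt : z ^ t = 1 := by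
    rw [hz, mul_pow, ← hyN, inv_pow, ← pow_mul, hNdef, show e * W * t = e * t * W by ring]
    exact mul_inv_cancel _
  -- reduction
  set π : (𝓞 K)ˣ →* (𝓞 K ⧸ q)ˣ := Units.map (Ideal.Quotient.mk q).toMonoidHom with hπ
  have hπu : π u = 1 := by
    apply Units.ext
    change Ideal.Quotient.mk q (u : 𝓞 K) = 1
    rw [← map_one (Ideal.Quotient.mk q), Ideal.Quotient.eq, hq, Ideal.mem_span_singleton]
    exact hlu
  have hzx : (π z) ^ (x ^ a) = 1 := by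
    rw [hz, map_mul, hπu, one_mul, map_inv, inv_pow, map_pow, ← pow_mul,
      show e * W * x ^ a = c0 * e by rw [hcW]; ring, pow_mul, hc0, pow_card_eq_one', one_pow,
      inv_one]
  have hzt' : (π z) ^ t = 1 := by rw [← map_pow, hzt, map_one]
  have hz1 : π z = 1 := by
    have hcop : Nat.Coprime (x ^ a) t := Nat.Coprime.pow_left a hxt
    have h1 := orderOf_dvd_of_pow_eq_one hzx
    have h2 := orderOf_dvd_of_pow_eq_one hzt'
    have h3 : orderOf (π z) ∣ 1 := by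
      have := Nat.dvd_gcd h1 h2
      rwa [hcop] at this
    exact orderOf_eq_one_iff.1 (Nat.dvd_one.1 h3)
  have hz2 : (z : 𝓞 K) - 1 ∈ q := by
    rw [← Ideal.Quotient.eq, map_one]
    exact congrArg Units.val hz1
  have hz3 : (z : 𝓞 K) = 1 := root_eq_one K l t hlp hlt z (by
    rw [← Units.val_pow_eq_pow_val, hzt, Units.val_one]) hz2
  have hz4 : z = 1 := Units.ext hz3
  refine ⟨y' ^ W, ?_⟩
  rw [← pow_mul, mul_comm W e]
  rw [hz, mul_inv_eq_one] at hz4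
  exact hz4.symm

end Pool.Agent.Run7.h632.CA
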