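import Pool.Agent.Run7.h632.CA.Defs

/-! Project CA (helper632), piece homs (helper24). -/

set_option autoImplicit false

namespace Pool.Agent.Run7.h632.CA

/-- a homomorphism to the algebraic numbers with kernel in a given minimal prime -/
theorem homs_key (R : Type) [CommRing R] [Module.Finite ℤ R] [Module.IsTorsionFree ℤ R]
    (P : Ideal R) (hP : P ∈ minimalPrimes R) :
    ∃ l : R →+* AlgebraicClosure ℚ, ∀ x, l x = 0 → x ∈ P := by
  have hprime : P.IsPrime := hP.1.1
  have hdom : IsDomain (R ⧸ P) := Ideal.Quotient.isDomain P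
  have hchar : CharZero (R ⧸ P) := by
    apply charZero_of_inj_zero
    intro n hn
    by_contra hn0
    have hnP : ((n : ℕ) : R) ∈ P := by
      rw [← Ideal.Quotient.eq_zero_iff_mem, map_natCast]
      exact hn
    refine notMem_nonZeroDivisors_of_mem_mem_minimalPrimes hnP hP ?_
    rw [mem_nonZeroDivisors_iff_right]
    intro x hx
    have h1 : (n : ℤ) • x = 0 := by
      rw [natCast_zsmul, nsmul_eq_mul, mul_comm]
      exact hx
    rcases smul_eq_zero.1 h1 with h | h
    · exact absurd (by exact_mod_cast h : n = 0) hn0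
    · exact h
  have hfin : Module.Finite ℤ (R ⧸ P) :=
    Module.Finite.of_surjective ((Ideal.Quotient.mk P).toAddMonoidHom.toIntLinearMap)
      Ideal.Quotient.mk_surjective
  have hint : Algebra.IsIntegral ℤ (R ⧸ P) := inferInstance
  have halg : Algebra.IsAlgebraic ℤ (R ⧸ P) := inferInstance
  let g : (R ⧸ P) →ₐ[ℤ] AlgebraicClosure ℚ := IsAlgClosed.lift
  refine ⟨g.toRingHom.comp (Ideal.Quotient.mk P), ?_⟩
  intro x hx
  rw [← Ideal.Quotient.eq_zero_iff_mem]
  have hker : RingHom.ker g.toRingHom = ⊥ := by
    apply Ideal.eq_bot_of_comap_eq_bot (R := ℤ)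
    rw [eq_bot_iff]
    intro n hn
    rw [Ideal.mem_comap, RingHom.mem_ker] at hn
    have h2 : g.toRingHom (algebraMap ℤ (R ⧸ P) n) = (n : AlgebraicClosure ℚ) := by
      simp
    rw [h2] at hn
    rw [Ideal.mem_bot]
    exact_mod_cast hn
  have h3 : Ideal.Quotient.mk P x ∈ RingHom.ker g.toRingHom := hx
  rw [hker, Ideal.mem_bot] at h3
  exact h3

theorem homs : S_homs := by
  intro R _ _ _
  classical
  have hnoeth : IsNoetherianRing R := IsNoetherianRing.of_finite ℤ R
  have hfin : (minimalPrimes R).Finite := minimalPrimes.finite_of_isNoetherianRing R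
  have hF : Finite (minimalPrimes R) := hfin
  have key := fun P : minimalPrimes R => homs_key R P.1 P.2
  choose lam hlam using key
  obtain ⟨s, hs⟩ := (Module.Finite.fg_top : (⊤ : Submodule ℤ R).FG)
  set S : Set (AlgebraicClosure ℚ) :=
    Set.range (fun q : minimalPrimes R × s => lam q.1 (q.2 : R)) with hS
  have hSfin : Finite S := Set.finite_range _
  set L := IntermediateField.adjoin ℚ S with hL
  have hfd : FiniteDimensional ℚ L :=
    IntermediateField.finiteDimensional_adjoin
      (fun x _ => ((AlgebraicClosure.isAlgebraic ℚ).isAlgebraic x).isIntegral)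
  have hnf : NumberField L := ⟨⟩
  have hmem : ∀ (P : minimalPrimes R) (x : R), lam P x ∈ L := by
    intro P x
    have hx : x ∈ Submodule.span ℤ (s : Set R) := by rw [hs]; exact Submodule.mem_top
    induction hx using Submodule.span_induction with
    | mem y hy => exact IntermediateField.subset_adjoin ℚ S ⟨(P, ⟨y, hy⟩), rfl⟩
    | zero => rw [map_zero]; exact L.zero_mem
    | add a b _ _ ha hb => rw [map_add]; exact L.add_mem ha hb
    | smul n a _ ha =>
      rw [map_zsmul]
      exact L.zsmul_mem ha n
  have hintR : Algebra.IsIntegral ℤ R := inferInstance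
  let f1 : minimalPrimes R → R →+* L := fun P => (lam P).codRestrict L (hmem P)
  have hint : ∀ (P : minimalPrimes R) (x : R), IsIntegral ℤ (f1 P x) := by
    intro P x
    exact (Algebra.IsIntegral.isIntegral (R := ℤ) x).map (f1 P).toIntAlgHom
  let f2 : minimalPrimes R → R →+* NumberField.RingOfIntegers L := fun P =>
    (f1 P).codRestrict (integralClosure ℤ L) (hint P)
  let e := (Finite.equivFin (minimalPrimes R)).symm
  refine ⟨L, inferInstance, hnf, Nat.card (minimalPrimes R), fun i => f2 (e i), ?_⟩
  intro x hx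
  rw [← mem_nilradical, nilradical, ← Ideal.sInf_minimalPrimes, Submodule.mem_sInf]
  intro P hP
  apply hlam ⟨P, hP⟩
  have h1 := hx (e.symm ⟨P, hP⟩)
  simp only [Equiv.apply_symm_apply] at h1
  have h2 : ((f2 ⟨P, hP⟩ x : NumberField.RingOfIntegers L) : L) = 0 := by
    rw [h1]
    rfl
  have h3 : f1 ⟨P, hP⟩ x = 0 := h2
  have h4 := congrArg Subtype.val h3
  exact h4

end Pool.Agent.Run7.h632.CA
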