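import Mathlib
import Pool.Agent.Run7.h632.CA.Defs

/-!
# Project CA (helper632), piece mu1: the Magnus map is homogeneous with constant coefficient one
-/

set_option autoImplicit false

namespace Pool.Agent.Run7.h632.CA

open Finset

lemma deg_zero {n j : ℕ} : Deg j (0 : T n) := by
  intro m hm
  exact absurd rfl hm

lemma deg_add {n j : ℕ} {x y : T n} (hx : Deg j x) (hy : Deg j y) : Deg j (x + y) := by
  intro m hm
  by_contra h
  apply hm
  have h1 : x.coeff m = 0 := by
    by_contra h1; exact h (hx m h1)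
  have h2 : y.coeff m = 0 := by
    by_contra h2; exact h (hy m h2)
  rw [MonoidAlgebra.coeff_add, Finsupp.add_apply, h1, h2, add_zero]

lemma deg_neg {n j : ℕ} {x : T n} (hx : Deg j x) : Deg j (-x) := by
  intro m hm
  apply hx m
  intro h
  apply hm
  rw [MonoidAlgebra.coeff_neg, Finsupp.neg_apply, h, neg_zero]

lemma deg_sub {n j : ℕ} {x y : T n} (hx : Deg j x) (hy : Deg j y) : Deg j (x - y) := by
  rw [sub_eq_add_neg]
  exact deg_add hx (deg_neg hy)

lemma deg_sum {n j : ℕ} {ι : Type} (s : Finset ι) (f : ι → T n) (h : ∀ i ∈ s, Deg j (f i)) :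
    Deg j (∑ i ∈ s, f i) := by
  classical
  induction s using Finset.induction_on with
  | empty => rw [sum_empty]; exact deg_zero
  | insert a s ha ih =>
    rw [sum_insert ha]
    exact deg_add (h a (mem_insert_self _ _)) (ih fun i hi => h i (mem_insert_of_mem hi))

lemma deg_mul {n i j : ℕ} {x y : T n} (hx : Deg i x) (hy : Deg j y) : Deg (i + j) (x * y) := by
  classical
  intro m hm
  have hm' : m ∈ (x * y).coeff.support := Finsupp.mem_support_iff.2 hm
  have h := MonoidAlgebra.support_coeff_mul_subset x y hm'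
  rw [Finset.mem_mul] at h
  obtain ⟨a, ha, b, hb, hab⟩ := h
  rw [← hab, FreeMonoid.length_mul, hx a (Finsupp.mem_support_iff.1 ha), hy b (Finsupp.mem_support_iff.1 hb)]

lemma deg_one {n : ℕ} : Deg 0 (1 : T n) := by
  classical
  intro m hm
  by_contra h
  apply hm
  rw [MonoidAlgebra.one_def, MonoidAlgebra.coeff_single, Finsupp.single_apply, if_neg]
  intro h1
  apply h
  rw [← h1]
  rfl

lemma deg_X {n : ℕ} (i : Fin n) : Deg 1 (X i) := by
  classical
  intro m hm
  by_contra h
  apply hm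
  unfold X
  rw [MonoidAlgebra.coeff_single, Finsupp.single_apply, if_neg]
  intro h1
  apply h
  rw [← h1]
  rfl

lemma hom_mul {n : ℕ} {f g : P n} (hf : Hom f) (hg : Hom g) : Hom (f * g) := by
  intro j
  rw [PowerSeries.coeff_mul]
  refine deg_sum _ _ fun p hp => ?_
  rw [Finset.HasAntidiagonal.mem_antidiagonal] at hp
  rw [← hp]
  exact deg_mul (hf _) (hg _)

lemma hom_add {n : ℕ} {f g : P n} (hf : Hom f) (hg : Hom g) : Hom (f + g) := by
  intro j
  rw [map_add]
  exact deg_add (hf j) (hg j)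

lemma hom_neg {n : ℕ} {f : P n} (hf : Hom f) : Hom (-f) := by
  intro j
  rw [map_neg]
  exact deg_neg (hf j)

lemma hom_sub {n : ℕ} {f g : P n} (hf : Hom f) (hg : Hom g) : Hom (f - g) := by
  intro j
  rw [map_sub]
  exact deg_sub (hf j) (hg j)

lemma hom_one {n : ℕ} : Hom (1 : P n) := by
  intro j
  rw [PowerSeries.coeff_one]
  split_ifs with h
  · rw [h]; exact deg_one
  · exact deg_zero

lemma hom_U {n : ℕ} (i : Fin n) : Hom ((U i : (P n)ˣ) : P n) := by
  intro j
  show Deg j (PowerSeries.coeff j (1 + PowerSeries.C (X i) * PowerSeries.X))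
  rcases j with _ | j
  · rw [map_add, PowerSeries.coeff_zero_one, PowerSeries.coeff_zero_mul_X, add_zero]
    exact deg_one
  · rw [map_add, PowerSeries.coeff_one, if_neg (by omega), PowerSeries.coeff_succ_mul_X, zero_add, PowerSeries.coeff_C]
    split_ifs with h
    · rw [h]; exact deg_X i
    · exact deg_zero

lemma hom_Ui {n : ℕ} (i : Fin n) : Hom (((U i : (P n)ˣ)⁻¹ : (P n)ˣ) : P n) := by
  intro j
  show Deg j (PowerSeries.coeff j (PowerSeries.mk (fun j => (- X i) ^ j)))
  rw [PowerSeries.coeff_mk]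
  induction j with
  | zero => rw [pow_zero]; exact deg_one
  | succ j ih => rw [pow_succ]; exact deg_mul ih (deg_neg (deg_X i))

lemma mu_of {n : ℕ} (i : Fin n) : mu n (FreeGroup.of i) = ((U i : (P n)ˣ) : P n) := by
  unfold mu
  simp

lemma mu_inv_of {n : ℕ} (i : Fin n) : mu n (FreeGroup.of i)⁻¹ = (((U i : (P n)ˣ)⁻¹ : (P n)ˣ) : P n) := by
  unfold mu
  simp

/-- **mu1** -/
theorem mu1 : S_mu1 := by
  intro n g
  induction g using FreeGroup.induction_on with
  | C1 =>
    rw [map_one]
    exact ⟨hom_one, PowerSeries.coeff_zero_one⟩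
  | of i =>
    rw [mu_of]
    refine ⟨hom_U i, ?_⟩
    show PowerSeries.coeff 0 (1 + PowerSeries.C (X i) * PowerSeries.X) = 1
    rw [map_add, PowerSeries.coeff_zero_one, PowerSeries.coeff_zero_mul_X, add_zero]
  | inv_of i _ =>
    rw [mu_inv_of]
    refine ⟨hom_Ui i, ?_⟩
    show PowerSeries.coeff 0 (PowerSeries.mk (fun j => (- X i) ^ j)) = 1
    rw [PowerSeries.coeff_mk, pow_zero]
  | mul x y hx hy =>
    rw [map_mul]
    refine ⟨hom_mul hx.1 hy.1, ?_⟩
    rw [PowerSeries.coeff_mul]
    simp [hx.2, hy.2]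

end Pool.Agent.Run7.h632.CA
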