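import Mathlib
import Pool.Agent.Run7.h632.CA.mu1

/-!
# Project CA (helper632), piece grp: the automorphisms in `Nil c` form a subgroup
-/

set_option autoImplicit false

namespace Pool.Agent.Run7.h632.CA

open Finset

/-- congruence modulo `t ^ (c + 1)` -/
def Eqc {n : ℕ} (c : ℕ) (f g : P n) : Prop := ∀ j ≤ c, PowerSeries.coeff j f = PowerSeries.coeff j g

lemma Eqc.refl {n c : ℕ} (f : P n) : Eqc c f f := fun _ _ => rfl

lemma Eqc.symm {n c : ℕ} {f g : P n} (h : Eqc c f g) : Eqc c g f := fun j hj => (h j hj).symm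

lemma Eqc.trans {n c : ℕ} {f g k : P n} (h : Eqc c f g) (h' : Eqc c g k) : Eqc c f k :=
  fun j hj => (h j hj).trans (h' j hj)

lemma Eqc.mul {n c : ℕ} {f g f' g' : P n} (h : Eqc c f g) (h' : Eqc c f' g') :
    Eqc c (f * f') (g * g') := by
  intro j hj
  rw [PowerSeries.coeff_mul, PowerSeries.coeff_mul]
  refine sum_congr rfl fun p hp => ?_
  rw [Finset.HasAntidiagonal.mem_antidiagonal] at hp
  rw [h p.1 (by omega), h' p.2 (by omega)]

lemma Eqc.mono {n c c' : ℕ} (hc : c ≤ c') {f g : P n} (h : Eqc c' f g) : Eqc c f g :=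
  fun j hj => h j (hj.trans hc)

/-- the inverse of a homogeneous series with constant term `1` -/
lemma hom_inv {n : ℕ} (h : P n) (hh : Hom h) (h0 : PowerSeries.coeff 0 h = 1) :
    ∃ h' : P n, Hom h' ∧ PowerSeries.coeff 0 h' = 1 ∧ h * h' = 1 ∧ h' * h = 1 := by
  have hc : PowerSeries.constantCoeff h = ((1 : (T n)ˣ) : T n) := by
    rw [← PowerSeries.coeff_zero_eq_constantCoeff_apply, h0, Units.val_one]
  refine ⟨PowerSeries.invOfUnit h 1, ?_, ?_, PowerSeries.mul_invOfUnit h 1 hc, PowerSeries.invOfUnit_mul h 1 hc⟩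
  · intro j
    induction j using Nat.strong_induction_on with
    | _ j ih =>
      have h1 := congrArg (PowerSeries.coeff j) (PowerSeries.mul_invOfUnit h 1 hc)
      rw [PowerSeries.coeff_mul] at h1
      have hmem : ((0, j) : ℕ × ℕ) ∈ Finset.HasAntidiagonal.antidiagonal j := by
        rw [Finset.HasAntidiagonal.mem_antidiagonal]; simp
      rw [← add_sum_erase _ _ hmem] at h1
      simp only [h0, one_mul] at h1
      have h2 : PowerSeries.coeff j (PowerSeries.invOfUnit h 1) = PowerSeries.coeff j (1 : P n) -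
          ∑ x ∈ (Finset.HasAntidiagonal.antidiagonal j).erase (0, j),
            PowerSeries.coeff x.1 h * PowerSeries.coeff x.2 (PowerSeries.invOfUnit h 1) := by
        rw [← h1]; abel
      rw [h2]
      refine deg_sub (hom_one j) (deg_sum _ _ fun x hx => ?_)
      rw [mem_erase, Finset.HasAntidiagonal.mem_antidiagonal] at hx
      have hx1 : x.1 ≠ 0 := by
        intro h3
        apply hx.1
        have : x.2 = j := by have := hx.2; omega
        exact Prod.ext h3 this
      have hx2 : x.2 < j := by have := hx.2; omega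
      have h4 := deg_mul (hh x.1) (ih x.2 hx2)
      rwa [hx.2] at h4
  · rw [PowerSeries.coeff_zero_eq_constantCoeff_apply, PowerSeries.constantCoeff_invOfUnit, inv_one, Units.val_one]

lemma coeff_one_mul' {n : ℕ} (f g : P n) : PowerSeries.coeff 1 (f * g) =
    PowerSeries.coeff 0 f * PowerSeries.coeff 1 g + PowerSeries.coeff 1 f * PowerSeries.coeff 0 g := by
  rw [PowerSeries.coeff_mul]
  simp [Finset.Nat.antidiagonal_succ]

lemma nil_mul {n c : ℕ} {φ ψ : MulAut (F n)} (h1 : Nil c φ) (h2 : Nil c ψ) : Nil c (φ * ψ) := by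
  obtain ⟨h, hh, h0, hg⟩ := h1
  obtain ⟨k, hk, k0, kg⟩ := h2
  refine ⟨h * k, hom_mul hh hk, ?_, ?_⟩
  · rw [PowerSeries.coeff_mul]
    simp [h0, k0]
  · intro g
    have e1 : Eqc c (mu n ((φ * ψ) g) * (h * k)) (h * mu n (ψ g) * k) := by
      rw [← mul_assoc]
      exact Eqc.mul (hg (ψ g)) (Eqc.refl k)
    have e2 : Eqc c (h * mu n (ψ g) * k) (h * k * mu n g) := by
      rw [mul_assoc, mul_assoc]
      exact Eqc.mul (Eqc.refl h) (kg g)
    exact e1.trans e2

lemma nil_inv {n c : ℕ} {φ : MulAut (F n)} (h1 : Nil c φ) : Nil c φ⁻¹ := by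
  obtain ⟨h, hh, h0, hg⟩ := h1
  obtain ⟨h', hh', h0', hm, hm'⟩ := hom_inv h hh h0
  refine ⟨h', hh', h0', ?_⟩
  intro g
  have e0 : Eqc c (mu n g * h) (h * mu n (φ⁻¹ g)) := by
    have := hg (φ⁻¹ g)
    rw [show φ (φ⁻¹ g) = g from φ.apply_symm_apply g] at this
    exact this
  have e1 : Eqc c (h' * (mu n g * h) * h') (h' * (h * mu n (φ⁻¹ g)) * h') :=
    Eqc.mul (Eqc.mul (Eqc.refl h') e0) (Eqc.refl h')
  have e2 : h' * (mu n g * h) * h' = h' * mu n g := by
    rw [mul_assoc, mul_assoc, hm, mul_one]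
  have e3 : h' * (h * mu n (φ⁻¹ g)) * h' = mu n (φ⁻¹ g) * h' := by
    rw [← mul_assoc h' h, hm', one_mul]
  rw [e2, e3] at e1
  exact e1.symm

/-- **grp** -/
theorem grp (hmu : S_mu1) : S_grp := by
  intro n
  refine ⟨fun c φ ψ => nil_mul, fun c φ => nil_inv, ?_, ?_, ?_⟩
  · intro c w
    refine ⟨mu n w, (hmu n w).1, (hmu n w).2, fun g j _ => ?_⟩
    rw [MulAut.conj_apply, ← map_mul, ← map_mul, inv_mul_cancel_right]
  · rintro c c' φ hc ⟨h, hh, h0, hg⟩
    exact ⟨h, hh, h0, fun g j hj => hg g j (hj.trans hc)⟩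
  · rintro c φ hc ⟨h, hh, h0, hg⟩ g
    have h1 := hg g 1 hc
    rw [coeff_one_mul', coeff_one_mul', h0, (hmu n (φ g)).2, (hmu n g).2] at h1
    simp only [one_mul, mul_one] at h1
    rw [add_comm] at h1
    exact add_right_cancel h1

end Pool.Agent.Run7.h632.CA
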