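import Mathlib
import Pool.Agent.Run7.h632.CA.grp

/-!
# Project CA (helper632), piece low: automorphisms inner modulo a term of the lower central series
-/

set_option autoImplicit false

namespace Pool.Agent.Run7.h632.CA

open Finset
open scoped commutatorElement

lemma low_mul0 {n c : ℕ} {A B : P n} (hA : ∀ p ≤ c, PowerSeries.coeff p A = 0)
    (hB : PowerSeries.coeff 0 B = 0) : Eqc (c + 1) (A * B) (B * A) := by
  intro j hj
  rw [PowerSeries.coeff_mul, PowerSeries.coeff_mul]
  have h1 : ∀ p ∈ Finset.HasAntidiagonal.antidiagonal j, PowerSeries.coeff p.1 A * PowerSeries.coeff p.2 B = 0 := by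
    intro p hp
    rw [Finset.HasAntidiagonal.mem_antidiagonal] at hp
    rcases Nat.eq_zero_or_pos p.2 with h | h
    · rw [h, hB, mul_zero]
    · rw [hA p.1 (by omega), zero_mul]
  have h2 : ∀ p ∈ Finset.HasAntidiagonal.antidiagonal j, PowerSeries.coeff p.1 B * PowerSeries.coeff p.2 A = 0 := by
    intro p hp
    rw [Finset.HasAntidiagonal.mem_antidiagonal] at hp
    rcases Nat.eq_zero_or_pos p.1 with h | h
    · rw [h, hB, zero_mul]
    · rw [hA p.2 (by omega), mul_zero]
  rw [sum_eq_zero h1, sum_eq_zero h2]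

lemma low_comm {n c : ℕ} {A B : P n} (hA : Eqc c A 1) (hB : Eqc 0 B 1) : Eqc (c + 1) (A * B) (B * A) := by
  have h1 := low_mul0 (c := c) (A := A - 1) (B := B - 1)
    (fun p hp => by rw [map_sub, hA p hp, sub_self]) (by rw [map_sub, hB 0 le_rfl, sub_self])
  intro j hj
  have h2 := h1 j hj
  have e1 : (A - 1) * (B - 1) = A * B - A - B + 1 := by noncomm_ring
  have e2 : (B - 1) * (A - 1) = B * A - A - B + 1 := by noncomm_ring
  rw [e1, e2] at h2
  simp only [map_add, map_sub] at h2
  have h3 := add_right_cancel h2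
  have h4 := sub_left_injective h3
  exact sub_left_injective h4

lemma low_series (hmu : S_mu1) {n : ℕ} (c : ℕ) : ∀ g : F n, g ∈ (⊤ : Subgroup (F n)).lowerCentralSeries c →
    Eqc c (mu n g) 1 := by
  induction c with
  | zero =>
    intro g _ j hj
    rw [Nat.le_zero.1 hj, (hmu n g).2, PowerSeries.coeff_zero_one]
  | succ c ih =>
    intro g hg
    rw [Subgroup.mem_lowerCentralSeries_succ_iff] at hg
    induction hg using Subgroup.closure_induction with
    | mem x hx =>
      obtain ⟨a, ha, b, -, rfl⟩ := hx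
      have hA := ih a ha
      have hB : Eqc 0 (mu n b) 1 := by
        intro j hj
        rw [Nat.le_zero.1 hj, (hmu n b).2, PowerSeries.coeff_zero_one]
      have h1 := (low_comm hA hB).mul (Eqc.refl (mu n (a⁻¹ * b⁻¹)))
      have e1 : mu n a * mu n b * mu n (a⁻¹ * b⁻¹) = mu n ⁅a, b⁆ := by
        rw [← map_mul, ← map_mul, commutatorElement_def]
        congr 1
        group
      have e2 : mu n b * mu n a * mu n (a⁻¹ * b⁻¹) = 1 := by
        rw [← map_mul, ← map_mul, ← map_one (mu n)]
        congr 1
        group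
      rwa [e1, e2] at h1
    | one =>
      rw [map_one]
      exact Eqc.refl _
    | mul x y _ _ hx hy =>
      have := hx.mul hy
      rwa [mul_one, ← map_mul] at this
    | inv x _ hx =>
      have := (Eqc.refl (c := c + 1) (mu n x⁻¹)).mul hx
      rw [← map_mul, inv_mul_cancel, map_one, mul_one] at this
      exact this.symm

/-- **low** -/
theorem low (hmu : S_mu1) : S_low := by
  rintro n c φ ⟨w, hw⟩
  refine ⟨mu n w, (hmu n w).1, (hmu n w).2, ?_⟩
  intro g
  have h1 := low_series hmu c _ (hw g)
  have h2 := h1.mul (Eqc.refl (mu n (w * g)))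
  rw [one_mul, ← map_mul] at h2
  have e1 : φ g * (w * g * w⁻¹)⁻¹ * (w * g) = φ g * w := by group
  rw [e1, map_mul, map_mul] at h2
  exact h2

end Pool.Agent.Run7.h632.CA
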