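import Pool.Agent.Run7.h632.CA.lim

set_option autoImplicit false

namespace Pool.Agent.Run7.h632.CA

/-- the lowest coefficient of a product -/
theorem coeff_mul_lowest {n : ℕ} (f d : P n) (j : ℕ) (hd : ∀ b < j, PowerSeries.coeff b d = 0) :
    PowerSeries.coeff j (f * d) = PowerSeries.coeff 0 f * PowerSeries.coeff j d := by
  rw [PowerSeries.coeff_mul, Finset.sum_eq_single (0, j)]
  · rintro ⟨a, b⟩ hab hne
    rw [Finset.HasAntidiagonal.mem_antidiagonal] at hab
    have hb : b < j := by
      rcases Nat.lt_or_ge b j with h | h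
      · exact h
      · exfalso
        apply hne
        simp only [Prod.mk.injEq]
        simp only at hab
        omega
    simp only
    rw [hd b hb, mul_zero]
  · intro h
    exact absurd (Finset.HasAntidiagonal.mem_antidiagonal.2 (by simp)) h

/-- the lowest coefficient of a product -/
theorem coeff_mul_lowest' {n : ℕ} (f d : P n) (j : ℕ) (hd : ∀ b < j, PowerSeries.coeff b d = 0) :
    PowerSeries.coeff j (d * f) = PowerSeries.coeff j d * PowerSeries.coeff 0 f := by
  rw [PowerSeries.coeff_mul, Finset.sum_eq_single (j, 0)]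
  · rintro ⟨b, a⟩ hab hne
    rw [Finset.HasAntidiagonal.mem_antidiagonal] at hab
    have hb : b < j := by
      rcases Nat.lt_or_ge b j with h | h
      · exact h
      · exfalso
        apply hne
        simp only [Prod.mk.injEq]
        simp only at hab
        omega
    simp only
    rw [hd b hb, zero_mul]
  · intro h
    exact absurd (Finset.HasAntidiagonal.mem_antidiagonal.2 (by simp)) h

theorem Deg.mul {n i j : ℕ} {x y : T n} (hx : Deg i x) (hy : Deg j y) : Deg (i + j) (x * y) := by
  classical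
  intro m hm
  rw [MonoidAlgebra.coeff_mul] at hm
  rw [Finsupp.sum] at hm
  obtain ⟨a, ha, ha'⟩ := Finset.exists_ne_zero_of_sum_ne_zero hm
  rw [Finsupp.sum] at ha'
  obtain ⟨b, hb, hb'⟩ := Finset.exists_ne_zero_of_sum_ne_zero ha'
  split_ifs at hb' with h
  · rw [← h, FreeMonoid.length_mul, hx a (left_ne_zero_of_mul hb'), hy b (right_ne_zero_of_mul hb')]
  · exact absurd rfl hb'

theorem Deg.add {n j : ℕ} {x y : T n} (hx : Deg j x) (hy : Deg j y) : Deg j (x + y) := by
  intro m hm
  by_cases h : x.coeff m = 0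
  · apply hy
    intro h'
    apply hm
    rw [MonoidAlgebra.coeff_add, Finsupp.add_apply, h, h', add_zero]
  · exact hx m h

theorem Deg.zero {n j : ℕ} : Deg j (0 : T n) := by
  intro m hm
  simp at hm

theorem Deg.sum {n j : ℕ} {ι : Type} (s : Finset ι) (f : ι → T n) (h : ∀ i ∈ s, Deg j (f i)) :
    Deg j (∑ i ∈ s, f i) := by
  classical
  induction s using Finset.induction_on with
  | empty => rw [Finset.sum_empty]; exact Deg.zero
  | insert a s ha ih =>
    rw [Finset.sum_insert ha]
    exact (h a (Finset.mem_insert_self a s)).add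
      (ih fun i hi => h i (Finset.mem_insert_of_mem hi))

theorem Hom.mul {n : ℕ} {f g : P n} (hf : Hom f) (hg : Hom g) : Hom (f * g) := by
  intro j
  rw [PowerSeries.coeff_mul]
  apply Deg.sum
  rintro ⟨a, b⟩ hab
  rw [Finset.HasAntidiagonal.mem_antidiagonal] at hab
  rw [← hab]
  exact (hf a).mul (hg b)

theorem Hom.one {n : ℕ} : Hom (1 : P n) := by
  classical
  intro j
  rw [PowerSeries.coeff_one]
  split_ifs with h
  · subst h
    intro m hm
    rw [MonoidAlgebra.one_def, MonoidAlgebra.coeff_single] at hm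
    rw [Finsupp.single_apply] at hm
    split_ifs at hm with h'
    · rw [← h']; rfl
    · exact absurd rfl hm
  · exact Deg.zero

theorem Hom.pow {n : ℕ} {f : P n} (hf : Hom f) (k : ℕ) : Hom (f ^ k) := by
  induction k with
  | zero => rw [pow_zero]; exact Hom.one
  | succ k ih => rw [pow_succ]; exact ih.mul hf

theorem coeff_zero_pow {n : ℕ} {f : P n} (hf : PowerSeries.coeff 0 f = 1) (k : ℕ) :
    PowerSeries.coeff 0 (f ^ k) = 1 := by
  induction k with
  | zero => simp
  | succ k ih =>
    rw [PowerSeries.coeff_zero_eq_constantCoeff_apply] at ih hf ⊢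
    rw [pow_succ, map_mul, ih, hf, mul_one]

/-- the defect of `h` for `φ` -/
noncomputable def dft {n : ℕ} (φ : MulAut (F n)) (h : P n) (g : F n) : P n :=
  mu n (φ g) * h - h * mu n g

theorem dft_mul {n : ℕ} (φ ψ : MulAut (F n)) (h k : P n) (g : F n) :
    dft (φ * ψ) (h * k) g = dft φ h (ψ g) * k + h * dft ψ k g := by
  unfold dft
  rw [MulAut.mul_apply, sub_mul, mul_sub]
  simp only [mul_assoc]
  abel

theorem dft_app {n : ℕ} (φ : MulAut (F n)) (h : P n) (g g' : F n) :
    dft φ h (g * g') = mu n (φ g) * dft φ h g' + dft φ h g * mu n g' := by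
  unfold dft
  rw [map_mul, map_mul, map_mul, sub_mul, mul_sub]
  simp only [mul_assoc]
  abel

theorem dft_sub {n : ℕ} (φ : MulAut (F n)) (h k : P n) (g : F n) :
    dft φ (h - k) g = dft φ h g - dft φ k g := by
  unfold dft
  rw [mul_sub, sub_mul]
  abel

theorem coeff_dft_eq_zero {n : ℕ} {c : ℕ} {φ : MulAut (F n)} {h : P n}
    (hc : ∀ g : F n, ∀ j ≤ c, PowerSeries.coeff j (mu n (φ g) * h) =
      PowerSeries.coeff j (h * mu n g)) (g : F n) (j : ℕ) (hj : j ≤ c) :
    PowerSeries.coeff j (dft φ h g) = 0 := by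
  unfold dft
  rw [map_sub, hc g j hj, sub_self]

theorem pow_coeff_one {n : ℕ} {φ : MulAut (F n)}
    (h1 : ∀ g, PowerSeries.coeff 1 (mu n (φ g)) = PowerSeries.coeff 1 (mu n g)) (k : ℕ) (g : F n) :
    PowerSeries.coeff 1 (mu n ((φ ^ k) g)) = PowerSeries.coeff 1 (mu n g) := by
  induction k generalizing g with
  | zero => rw [pow_zero]; rfl
  | succ k ih => rw [pow_succ, MulAut.mul_apply, ih, h1]

theorem step (h_mu1 : S_mu1) (h_mu2 : S_mu2) (h_uniq : S_uniq) {n : ℕ} (hn : 2 ≤ n) (c k : ℕ)
    (φ : MulAut (F n)) (hc : 1 ≤ c) (hk : 1 ≤ k)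
    (h1 : ∀ g, PowerSeries.coeff 1 (mu n (φ g)) = PowerSeries.coeff 1 (mu n g))
    (hpow : Nil (c + 1) (φ ^ k)) (hφ : Nil c φ) : Nil (c + 1) φ := by
  obtain ⟨h, hHom, h0, hcom⟩ := hφ
  obtain ⟨h', hHom', h0', hcom'⟩ := hpow
  have hE := coeff_dft_eq_zero hcom
  -- `D` is a homomorphism
  have hmul : ∀ g g', PowerSeries.coeff (c + 1) (dft φ h (g * g')) =
      PowerSeries.coeff (c + 1) (dft φ h g) + PowerSeries.coeff (c + 1) (dft φ h g') := by
    intro g g'
    rw [dft_app, map_add,
      coeff_mul_lowest _ _ _ (fun b hb => hE g' b (by omega)),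
      coeff_mul_lowest' _ _ _ (fun b hb => hE g b (by omega)), (h_mu1 n _).2, (h_mu1 n _).2,
      one_mul, mul_one, add_comm]
  have hD : ∀ g, PowerSeries.coeff (c + 1) (dft φ h (φ g)) =
      PowerSeries.coeff (c + 1) (dft φ h g) := fun g =>
    (h_mu2 n).2.2 (fun g => PowerSeries.coeff (c + 1) (dft φ h g)) hmul (φ g) g (h1 g)
  have hDk : ∀ (m : ℕ) (g : F n), PowerSeries.coeff (c + 1) (dft φ h ((φ ^ m) g)) =
      PowerSeries.coeff (c + 1) (dft φ h g) := by
    intro m
    induction m with
    | zero => intro g; rw [pow_zero]; rfl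
    | succ m ih => intro g; rw [pow_succ, MulAut.mul_apply, ih, hD]
  -- powers
  have hpk : ∀ (m : ℕ) (g : F n), (∀ j ≤ c, PowerSeries.coeff j (dft (φ ^ m) (h ^ m) g) = 0) ∧
      PowerSeries.coeff (c + 1) (dft (φ ^ m) (h ^ m) g) =
        m • PowerSeries.coeff (c + 1) (dft φ h g) := by
    intro m
    induction m with
    | zero =>
      intro g
      have : dft (φ ^ 0) (h ^ 0) g = 0 := by
        unfold dft
        simp
      rw [this]
      simp
    | succ m ih =>
      intro g
      rw [pow_succ φ, pow_succ h, dft_mul]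
      have a1 := (ih (φ g)).1
      have a2 := (ih (φ g)).2
      constructor
      · intro j hj
        rw [map_add, coeff_mul_lowest' _ _ _ (fun b hb => a1 b (by omega)),
          coeff_mul_lowest _ _ _ (fun b hb => hE g b (by omega)), a1 j hj, hE g j hj]
        simp
      · rw [map_add, coeff_mul_lowest' _ _ _ (fun b hb => a1 b (by omega)),
          coeff_mul_lowest _ _ _ (fun b hb => hE g b (by omega)), a2, hD, h0,
          coeff_zero_pow h0, mul_one, one_mul, succ_nsmul]
  -- the difference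
  have hlow : ∀ j < c, PowerSeries.coeff j (h ^ k - h') = 0 := by
    refine h_uniq n hn c (φ ^ k) (h ^ k - h') (pow_coeff_one h1 k) ((hHom.pow k).sub hHom')
      (by rw [map_sub, coeff_zero_pow h0, h0', sub_self]) ?_
    intro g j hj
    have := dft_sub (φ ^ k) (h ^ k) h' g
    have h2 : PowerSeries.coeff j (dft (φ ^ k) (h ^ k - h') g) = 0 := by
      rw [this, map_sub, (hpk k g).1 j hj, coeff_dft_eq_zero hcom' g j (by omega), sub_zero]
    unfold dft at h2
    rw [map_sub] at h2
    exact sub_eq_zero.1 h2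
  obtain ⟨x, hx⟩ : ∃ x, x = PowerSeries.coeff c (h ^ k - h') := ⟨_, rfl⟩
  have hxdeg : Deg c x := by rw [hx]; exact (hHom.pow k).sub hHom' c
  have hkey : ∀ g, PowerSeries.coeff 1 (mu n g) * x - x * PowerSeries.coeff 1 (mu n g) =
      k • PowerSeries.coeff (c + 1) (dft φ h g) := by
    intro g
    have h2 : PowerSeries.coeff (c + 1) (dft (φ ^ k) (h ^ k - h') g) =
        k • PowerSeries.coeff (c + 1) (dft φ h g) := by
      rw [dft_sub, map_sub, (hpk k g).2, coeff_dft_eq_zero hcom' g (c + 1) le_rfl, sub_zero]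
    rw [← h2]
    unfold dft
    rw [map_sub, coeff_mul_low _ _ _ hlow, coeff_mul_low' _ _ _ hlow, (h_mu1 n _).2,
      (h_mu1 n _).2, pow_coeff_one h1, one_mul, mul_one, ← hx]
    abel
  obtain ⟨y, hy⟩ : ∃ y : T n, y = ((k : ℚ)⁻¹) • x := ⟨_, rfl⟩
  have hk0 : (k : ℚ) ≠ 0 := by exact_mod_cast (by omega : k ≠ 0)
  have hydeg : Deg c y := by
    intro m hm
    apply hxdeg
    intro h2
    apply hm
    rw [hy, MonoidAlgebra.coeff_smul_apply, h2, smul_zero]
  have hkey2 : ∀ g, PowerSeries.coeff 1 (mu n g) * y - y * PowerSeries.coeff 1 (mu n g) =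
      PowerSeries.coeff (c + 1) (dft φ h g) := by
    intro g
    rw [hy, mul_smul_comm, smul_mul_assoc, ← smul_sub, hkey g, ← Nat.cast_smul_eq_nsmul ℚ,
      smul_smul, inv_mul_cancel₀ hk0, one_smul]
  have hMlow : ∀ j < c, PowerSeries.coeff j (PowerSeries.monomial c y : P n) = 0 := by
    intro j hj
    rw [PowerSeries.coeff_monomial, if_neg (by omega)]
  have hMc : PowerSeries.coeff c (PowerSeries.monomial c y : P n) = y := by
    rw [PowerSeries.coeff_monomial, if_pos rfl]
  have hMc1 : PowerSeries.coeff (c + 1) (PowerSeries.monomial c y : P n) = 0 := by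
    rw [PowerSeries.coeff_monomial, if_neg (by omega)]
  refine ⟨h - PowerSeries.monomial c y, ?_, ?_, ?_⟩
  · apply hHom.sub
    intro j
    rw [PowerSeries.coeff_monomial]
    split_ifs with h2
    · rw [h2]; exact hydeg
    · exact Deg.zero
  · rw [map_sub, h0, hMlow 0 (by omega), sub_zero]
  · intro g j hj
    have h2 : PowerSeries.coeff j (dft φ (h - PowerSeries.monomial c y) g) = 0 := by
      rw [dft_sub, map_sub]
      rcases Nat.lt_or_ge j (c + 1) with hj1 | hj1
      · rw [hE g j (by omega)]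
        unfold dft
        rw [map_sub]
        rcases Nat.lt_or_ge j c with hj2 | hj2
        · rw [coeff_mul_lowest _ _ _ (fun b hb => hMlow b (by omega)),
            coeff_mul_lowest' _ _ _ (fun b hb => hMlow b (by omega)), hMlow j hj2]
          simp
        · have hjc : j = c := by omega
          subst hjc
          rw [coeff_mul_lowest _ _ _ hMlow, coeff_mul_lowest' _ _ _ hMlow, (h_mu1 n _).2,
            (h_mu1 n _).2]
          simp
      · have hjc : j = c + 1 := by omega
        subst hjc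
        rw [← hkey2 g]
        unfold dft
        rw [map_sub, coeff_mul_low _ _ _ hMlow, coeff_mul_low' _ _ _ hMlow, (h_mu1 n _).2,
          (h_mu1 n _).2, h1, hMc, hMc1]
        simp
    unfold dft at h2
    rw [map_sub] at h2
    exact sub_eq_zero.1 h2

theorem root (h_mu1 : S_mu1) (h_mu2 : S_mu2) (h_uniq : S_uniq) (h_grp : S_grp) : S_root := by
  intro n hn c k φ hc hk h1
  induction c, hc using Nat.le_induction with
  | base =>
    intro _
    refine ⟨1, Hom.one, by simp, ?_⟩
    intro g j hj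
    rw [mul_one, one_mul]
    rcases (by omega : j = 0 ∨ j = 1) with rfl | rfl
    · rw [(h_mu1 n _).2, (h_mu1 n _).2]
    · exact h1 g
  | succ c hc ih =>
    intro hpow
    exact step h_mu1 h_mu2 h_uniq hn c k φ hc hk h1 hpow
      (ih ((h_grp n).2.2.2.1 c (c + 1) _ (by omega) hpow))

end Pool.Agent.Run7.h632.CA
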