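import Pool.Agent.Run7.h632.CA.Defs

set_option autoImplicit false

namespace Pool.Agent.Run7.h632.CA

/-- some power of all units is congruent to `1` modulo `m` -/
theorem unip_modpow {R : Type} [CommRing R] [Module.Finite ℤ R] (m : ℕ) (hm : 1 ≤ m) :
    ∃ e : ℕ, 1 ≤ e ∧ ∀ u : Rˣ, (m : R) ∣ ((u ^ e : Rˣ) : R) - 1 := by
  have hfin : Finite (R ⧸ Ideal.span {(m : R)}) := by
    have : Module.Finite ℤ (R ⧸ Ideal.span {(m : R)}) :=
      Module.Finite.of_surjective ((Ideal.Quotient.mk (Ideal.span {(m : R)})).toAddMonoidHom.toIntLinearMap)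
        Ideal.Quotient.mk_surjective
    apply Module.finite_of_fg_torsion
    intro x
    refine ⟨⟨(m : ℤ), mem_nonZeroDivisors_of_ne_zero (by exact_mod_cast (by omega : m ≠ 0))⟩, ?_⟩
    obtain ⟨y, rfl⟩ := Ideal.Quotient.mk_surjective x
    show (m : ℤ) • (Ideal.Quotient.mk (Ideal.span {(m : R)})) y = 0
    rw [zsmul_eq_mul, Int.cast_natCast, ← map_natCast (Ideal.Quotient.mk (Ideal.span {(m : R)})),
      ← map_mul, Ideal.Quotient.eq_zero_iff_mem]
    exact Ideal.mul_mem_right _ _ (Ideal.mem_span_singleton_self _)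
  have : Finite (R ⧸ Ideal.span {(m : R)})ˣ := inferInstance
  refine ⟨Nat.card (R ⧸ Ideal.span {(m : R)})ˣ, Nat.card_pos, fun u => ?_⟩
  rw [← Ideal.mem_span_singleton, ← Ideal.Quotient.eq_zero_iff_mem, map_sub, map_one, sub_eq_zero]
  have h1 : (Units.map (Ideal.Quotient.mk (Ideal.span {(m : R)})).toMonoidHom u) ^
      (Nat.card (R ⧸ Ideal.span {(m : R)})ˣ) = 1 := pow_card_eq_one'
  have h2 := congrArg Units.val h1
  rw [Units.val_pow_eq_pow_val] at h2
  rw [Units.val_pow_eq_pow_val, map_pow]
  exact h2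

theorem unip (h : S_artin) : S_unip := by
  intro R _ _ _ B V hV
  have : IsNoetherianRing R := isNoetherian_of_tower ℤ (inferInstance : IsNoetherian ℤ R)
  obtain ⟨N, hN⟩ := IsNoetherianRing.isNilpotent_nilradical R
  -- the statement for the powers of the nilradical
  have key : ∀ j : ℕ, j ≤ N → ∃ m : ℕ, 1 ≤ m ∧ ∀ b ∈ B,
      ((b : R) - 1 ∈ (nilradical R) ^ (N - j + 1)) → (m : R) ∣ (b : R) - 1 → b ∈ V := by
    intro j
    induction j with
    | zero =>
      intro _
      refine ⟨1, le_rfl, fun b _ hb _ => ?_⟩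
      have h1 : (b : R) - 1 ∈ (nilradical R) ^ N := Ideal.pow_le_pow_right (by omega) hb
      rw [hN, Ideal.zero_eq_bot, Ideal.mem_bot, sub_eq_zero] at h1
      have h2 : b = 1 := Units.ext h1
      rw [h2]
      exact V.one_mem
    | succ j ih =>
      intro hj
      obtain ⟨m₁, hm₁, hind⟩ := ih (by omega)
      obtain ⟨i, hi⟩ : ∃ i, i = N - (j + 1) + 1 := ⟨_, rfl⟩
      have hi' : N - j + 1 = i + 1 := by omega
      have hi1 : 1 ≤ i := by omega
      rw [hi'] at hind
      rw [← hi]
      -- the power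
      obtain ⟨e₂, he₂, hpow⟩ := unip_modpow (R := R) m₁ hm₁
      obtain ⟨e₁, he₁, hpow₁⟩ : ∃ e₁ : ℕ, 1 ≤ e₁ ∧ ∀ b ∈ B, b ^ e₁ ∈ V := by
        refine ⟨V.relIndex B, Nat.one_le_iff_ne_zero.mpr hV.2, fun b hb => ?_⟩
        have := Subgroup.pow_index_mem (V.subgroupOf B) ⟨b, hb⟩
        rw [Subgroup.mem_subgroupOf] at this
        exact this
      -- the homomorphism
      let I : Ideal R := (nilradical R) ^ i
      let I' : Ideal R := (nilradical R) ^ (i + 1)
      have : Module.Finite ℤ (R ⧸ I') :=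
        Module.Finite.of_surjective ((Ideal.Quotient.mk I').toAddMonoidHom.toIntLinearMap)
          Ideal.Quotient.mk_surjective
      have : AddGroup.FG (R ⧸ I') := Module.Finite.iff_addGroup_fg.mp this
      have hmul : ∀ x ∈ I, ∀ y ∈ I, x * y ∈ I' := by
        intro x hx y hy
        have h1 : x * y ∈ (nilradical R) ^ (i + i) := by
          rw [pow_add]
          exact Ideal.mul_mem_mul hx hy
        exact Ideal.pow_le_pow_right (by omega) h1
      have hle : I' ≤ I := Ideal.pow_le_pow_right (by omega)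
      let S : Subgroup (Multiplicative (R ⧸ I')) :=
        { carrier := {y | ∃ b ∈ B, (b : R) - 1 ∈ I ∧
            y = Multiplicative.ofAdd (Ideal.Quotient.mk I' ((b : R) - 1))}
          one_mem' := ⟨1, B.one_mem, by simp, by simp⟩
          mul_mem' := by
            rintro _ _ ⟨b, hb, hbI, rfl⟩ ⟨c, hc, hcI, rfl⟩
            have e1 : ((b * c : Rˣ) : R) - 1
                = ((b : R) - 1) * ((c : R) - 1) + (((b : R) - 1) + ((c : R) - 1)) := by
              push_cast
              ring
            refine ⟨b * c, B.mul_mem hb hc, ?_, ?_⟩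
            · rw [e1]
              exact I.add_mem (I.mul_mem_right _ hbI) (I.add_mem hbI hcI)
            · rw [← ofAdd_add, ← map_add]
              congr 1
              rw [e1, Ideal.Quotient.mk_eq_mk_iff_sub_mem]
              have := hmul _ hbI _ hcI
              have h2 : ((b : R) - 1 + ((c : R) - 1)) - (((b : R) - 1) * ((c : R) - 1)
                + (((b : R) - 1) + ((c : R) - 1))) = -(((b : R) - 1) * ((c : R) - 1)) := by ring
              rw [h2]
              exact I'.neg_mem this
          inv_mem' := by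
            rintro _ ⟨b, hb, hbI, rfl⟩
            have e1 : ((b⁻¹ : Rˣ) : R) - 1 = - (((b⁻¹ : Rˣ) : R) * ((b : R) - 1)) := by
              rw [mul_sub, Units.inv_mul]
              ring
            have e2 : ((b⁻¹ : Rˣ) : R) - 1 ∈ I := by
              rw [e1]
              exact I.neg_mem (I.mul_mem_left _ hbI)
            refine ⟨b⁻¹, B.inv_mem hb, e2, ?_⟩
            rw [← ofAdd_neg, ← map_neg]
            congr 1
            rw [Ideal.Quotient.mk_eq_mk_iff_sub_mem]
            have := hmul _ hbI _ e2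
            have h2 : -((b : R) - 1) - (((b⁻¹ : Rˣ) : R) - 1)
                = ((b : R) - 1) * (((b⁻¹ : Rˣ) : R) - 1) := by
              have h3 : (b : R) * ((b⁻¹ : Rˣ) : R) = 1 := Units.mul_inv b
              linear_combination -h3
            rw [h2]
            exact this }
      obtain ⟨e', he', hart⟩ := h (Multiplicative (R ⧸ I')) S (e₁ * e₂) (by positivity)
      refine ⟨m₁ * e', by nlinarith [Nat.mul_le_mul hm₁ he'], fun b hb hbI hdvd => ?_⟩
      obtain ⟨z, hz⟩ := hdvd
      -- `b - 1 = e' * x`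
      have hx : (b : R) - 1 = (e' : R) * ((m₁ : R) * z) := by
        rw [hz]; push_cast; ring
      have hS : (Multiplicative.ofAdd (Ideal.Quotient.mk I' ((m₁ : R) * z))) ^ e' ∈ S := by
        refine ⟨b, hb, hbI, ?_⟩
        rw [← ofAdd_nsmul, nsmul_eq_mul, hx, ← map_natCast (Ideal.Quotient.mk I') e', ← map_mul]
      obtain ⟨y, ⟨c, hc, hcI, rfl⟩, hy⟩ := hart _ hS
      rw [← ofAdd_nsmul, ← ofAdd_nsmul] at hy
      have hy' := Multiplicative.ofAdd.injective hy
      rw [nsmul_eq_mul, nsmul_eq_mul, ← map_natCast (Ideal.Quotient.mk I'),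
        ← map_natCast (Ideal.Quotient.mk I'), ← map_mul, ← map_mul, ← hx,
        Ideal.Quotient.mk_eq_mk_iff_sub_mem] at hy'
      -- powers of `c`
      have hcp : ∀ k : ℕ, (c : R) ^ k - 1 ∈ I ∧ (c : R) ^ k - 1 - (k : R) * ((c : R) - 1) ∈ I' := by
        intro k
        induction k with
        | zero => simp
        | succ k ihk =>
          have e1 : (c : R) ^ (k + 1) - 1
              = ((c : R) ^ k - 1) * ((c : R) - 1) + (((c : R) ^ k - 1) + ((c : R) - 1)) := by
            ring
          refine ⟨?_, ?_⟩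
          · rw [e1]
            exact I.add_mem (I.mul_mem_right _ ihk.1) (I.add_mem ihk.1 hcI)
          · have e2 : (c : R) ^ (k + 1) - 1 - ((k + 1 : ℕ) : R) * ((c : R) - 1)
              = ((c : R) ^ k - 1) * ((c : R) - 1)
                + ((c : R) ^ k - 1 - (k : R) * ((c : R) - 1)) := by
              push_cast
              ring
            rw [e2]
            exact I'.add_mem (hmul _ ihk.1 _ hcI) ihk.2
      obtain ⟨w, hw⟩ : ∃ w : Rˣ, w = c ^ (e₁ * e₂) := ⟨_, rfl⟩
      have hwB : w ∈ B := by rw [hw]; exact B.pow_mem hc _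
      have hwV : w ∈ V := by
        rw [hw, mul_comm, pow_mul]
        exact hpow₁ _ (B.pow_mem hc _)
      have hwm : (m₁ : R) ∣ (w : R) - 1 := by
        rw [hw, pow_mul]
        exact hpow _
      have hwI : (w : R) - 1 ∈ I := by
        rw [hw, Units.val_pow_eq_pow_val]
        exact (hcp _).1
      have hbw : (b : R) - (w : R) ∈ I' := by
        have h1 := (hcp (e₁ * e₂)).2
        rw [← Units.val_pow_eq_pow_val, ← hw] at h1
        have h2 : (b : R) - w = -((w : R) - 1 - ((e₁ * e₂ : ℕ) : R) * ((c : R) - 1))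
            - (((e₁ * e₂ : ℕ) : R) * ((c : R) - 1) - ((b : R) - 1)) := by ring
        rw [h2]
        exact I'.sub_mem (I'.neg_mem h1) hy'
      have hd : ((b * w⁻¹ : Rˣ) : R) - 1 = ((w⁻¹ : Rˣ) : R) * ((b : R) - w) := by
        push_cast
        rw [mul_sub, Units.inv_mul]
        ring
      have hdV : b * w⁻¹ ∈ V := by
        apply hind _ (B.mul_mem hb (B.inv_mem hwB))
        · rw [hd]
          exact I'.mul_mem_left _ hbw
        · rw [hd]
          apply Dvd.dvd.mul_left
          have h1 : (b : R) - w = ((b : R) - 1) - ((w : R) - 1) := by ring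
          rw [h1]
          refine dvd_sub ?_ hwm
          rw [hz]
          push_cast
          exact ⟨(e' : R) * z, by ring⟩
      have := V.mul_mem hdV hwV
      simpa using this
  obtain ⟨m, hm, hk⟩ := key N le_rfl
  refine ⟨m, hm, fun b hb hnil hdvd => hk b hb ?_ hdvd⟩
  simpa using (mem_nilradical.mpr hnil)

end Pool.Agent.Run7.h632.CA
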