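import Pool.Agent.Run7.h632.CA.final
import Pool.Agent.Run7.h632.CA.root
import Pool.Agent.Run7.h632.CA.low
import Pool.Agent.Run7.h632.CA.chev
import Pool.Agent.Run7.h632.CA.cheb
import Pool.Agent.Run7.h632.CA.homs
import Pool.Agent.Run7.h632.CA.artin
import Pool.Agent.Run7.h632.CA.unip
import Pool.Agent.Run7.h632.CA.cen
import Pool.Agent.Run7.h817.CA.Abel
import Pool.Agent.Run7.h817.CA.Csp
import Pool.Agent.Run7.h817.CA.Mat
import Pool.Agent.Run7.h817.CA.Semis
import Pool.Agent.Run7.h817.CA.Units
import Pool.Agent.Run7.h58.CA.Chain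
import Pool.Agent.Run7.h58.CA.Inj
import Pool.Agent.Run7.h58.CA.Inner
import Pool.Agent.Run7.h58.CA.Poly
import Pool.Agent.Run7.h58.CA.Stab
import Pool.Agent.Run7.h837.CA.Expand
import Pool.Agent.Run7.h837.CA.Fox
import Pool.Agent.Run7.h837.CA.Left
import Pool.Agent.Run7.h837.CA.Mu2

/-!
# The congruence topology on virtually abelian subgroups of `Out (F_n)`: assembly

Parts by helper24, helper58, helper270, helper592, helper817, helper837, helper903.
-/

set_option autoImplicit false

namespace Pool.Agent.Run7.h632.CA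

/-- Chevalley's theorem and the congruence subgroup property of abelian matrix groups -/
theorem t_units : S_units :=
  _root_.Run7.h817.CA.t_units (_root_.Run7.h817.CA.t_semis artin (chev cheb) homs)
    (unip artin)

/-- the abelian case -/
theorem t_csp : S_csp :=
  _root_.Run7.h817.CA.t_csp
    (_root_.Run7.h817.CA.t_abel (_root_.Run7.h817.CA.t_mat t_units))
    (Pool.Agent.Run7.h58.CA.t_stab (grp mu1)
      (root mu1 _root_.Run7.h837.CA.t_mu2 (uniq cen mu1) (grp mu1))
      (lim (uniq cen mu1) (grp mu1))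
      (Pool.Agent.Run7.h58.CA.t_poly mu1 _root_.Run7.h837.CA.t_expand
        _root_.Run7.h837.CA.t_fox _root_.Run7.h837.CA.t_left)
      (Pool.Agent.Run7.h58.CA.t_inner Pool.Agent.Run7.h58.CA.t_inj)
      Pool.Agent.Run7.h58.CA.t_chain)
    (low mu1)

/-- the theorem -/
theorem t_final : S_final := final t_csp

end Pool.Agent.Run7.h632.CA
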