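import Pool.Agent.Run7.h632.CA.gros

set_option autoImplicit false

namespace Pool.Agent.Run7.h632.CA

/-- the automorphisms acting as inner automorphisms modulo the characteristic subgroup `K` -/
def NK {G : Type} [Group G] (K : Subgroup G) (hK : K.Characteristic) : Subgroup (MulAut G) where
  carrier := {φ | InnerMod K φ}
  one_mem' := ⟨1, fun x => by simp⟩
  mul_mem' := by
    rintro φ ψ ⟨g, hg⟩ ⟨g', hg'⟩
    refine ⟨g * g', fun x => ?_⟩
    have h1 := hg (g' * x * g'⁻¹)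
    have h2 := hg' x
    have h3 : φ (ψ x * (g' * x * g'⁻¹)⁻¹) ∈ K := by
      have := (Subgroup.characteristic_iff_le_comap.mp hK) φ h2
      exact this
    have e : (φ * ψ) x * (g * g' * x * (g * g')⁻¹)⁻¹ =
        φ (ψ x * (g' * x * g'⁻¹)⁻¹) * (φ (g' * x * g'⁻¹) * (g * (g' * x * g'⁻¹) * g⁻¹)⁻¹) := by
      simp only [MulAut.mul_apply, map_mul, map_inv]
      group
    rw [e]
    exact K.mul_mem h3 h1
  inv_mem' := by
    rintro φ ⟨g, hg⟩
    have hn : K.Normal := inferInstance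
    refine ⟨g⁻¹, fun x => ?_⟩
    have h1 := hg (φ⁻¹ x)
    rw [MulAut.apply_inv_self] at h1
    have h2 := hn.conj_mem _ (K.inv_mem h1) g⁻¹
    have e : g⁻¹ * (x * (g * φ⁻¹ x * g⁻¹)⁻¹)⁻¹ * (g⁻¹)⁻¹ =
        φ⁻¹ x * (g⁻¹ * x * (g⁻¹)⁻¹)⁻¹ := by group
    rw [e] at h2
    exact h2

theorem mem_NK {G : Type} [Group G] {K : Subgroup G} {hK : K.Characteristic} {φ : MulAut G} :
    φ ∈ NK K hK ↔ InnerMod K φ := Iff.rfl

theorem NK_normal {G : Type} [Group G] (K : Subgroup G) (hK : K.Characteristic) :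
    (NK K hK).Normal := by
  constructor
  rintro φ ⟨g, hg⟩ ψ
  refine ⟨ψ g, fun x => ?_⟩
  have h1 := hg (ψ⁻¹ x)
  have h2 : ψ (φ (ψ⁻¹ x) * (g * ψ⁻¹ x * g⁻¹)⁻¹) ∈ K := (Subgroup.characteristic_iff_le_comap.mp hK) ψ h1
  have e : (ψ * φ * ψ⁻¹) x * (ψ g * x * (ψ g)⁻¹)⁻¹ = ψ (φ (ψ⁻¹ x) * (g * ψ⁻¹ x * g⁻¹)⁻¹) := by
    simp only [MulAut.mul_apply, map_mul, map_inv, MulAut.apply_inv_self]
  rw [e]
  exact h2

theorem Inn_le_NK {G : Type} [Group G] (K : Subgroup G) (hK : K.Characteristic) :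
    Inn G ≤ NK K hK := by
  rintro _ ⟨w, rfl⟩
  refine ⟨w, fun x => ?_⟩
  simp [MulAut.conj_apply]

theorem InnerMod.mono {G : Type} [Group G] {K K' : Subgroup G} (h : K ≤ K') {φ : MulAut G}
    (hφ : InnerMod K φ) : InnerMod K' φ := by
  obtain ⟨g, hg⟩ := hφ
  exact ⟨g, fun x => h (hg x)⟩

theorem ext (h : S_csp) : S_ext := by
  intro n hn A hA hfg hcomm b hb
  by_contra hbA
  have hN := Inn_normal (F n)
  -- `b` commutes with `A` modulo `Inn`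
  have hbc : ∀ c ∈ A, b * c * b⁻¹ * c⁻¹ ∈ Inn (F n) := by
    intro c hc
    refine gros h n hn _ (fun K hK1 hK2 => ?_)
    obtain ⟨a, ha, hab⟩ := hb K hK1 hK2
    have hNK := NK_normal K hK1
    rw [← mem_NK (hK := hK1)] at hab ⊢
    have hac : a * c * a⁻¹ * c⁻¹ ∈ NK K hK1 := Inn_le_NK K hK1 (hcomm a ha c hc)
    -- b = a ν
    set ν := a⁻¹ * b with hν
    have eb : b = a * ν := by rw [hν]; group
    have e : b * c * b⁻¹ * c⁻¹ =
        (a * ν * a⁻¹) * (a * c * a⁻¹ * c⁻¹) * ((c * a) * ν⁻¹ * (c * a)⁻¹) := by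
      rw [eb]; group
    rw [e]
    refine (NK K hK1).mul_mem ((NK K hK1).mul_mem ?_ hac) ?_
    · exact hNK.conj_mem _ hab a
    · exact hNK.conj_mem _ ((NK K hK1).inv_mem hab) _
  have hbc' : ∀ c ∈ A, b * c * b⁻¹ ∈ A := by
    intro c hc
    have := A.mul_mem (hA (hbc c hc)) hc
    simpa using this
  have hbc'' : ∀ c ∈ A, b⁻¹ * c * b ∈ A := by
    intro c hc
    have h1 := hN.conj_mem _ (hbc c hc) b⁻¹
    have e : b⁻¹ * (b * c * b⁻¹ * c⁻¹) * (b⁻¹)⁻¹ = c * (b⁻¹ * c * b)⁻¹ := by group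
    rw [e] at h1
    have h2 := A.mul_mem (A.inv_mem (hA h1)) hc
    have e2 : (c * (b⁻¹ * c * b)⁻¹)⁻¹ * c = b⁻¹ * c * b := by group
    rw [e2] at h2
    exact h2
  obtain ⟨V, hV1, hV2, hV3⟩ := sep_one A b hbc' hbc'' hbA
  have hc2 := comm_mod (Inn (F n)) A b hcomm hbc
  obtain ⟨K, hK1, hK2, hK3⟩ := h n hn (A ⊔ Subgroup.zpowers b) (hA.trans le_sup_left)
    (hfg.sup ((Subgroup.fg_iff _).mpr ⟨{b}, (Subgroup.zpowers_eq_closure b).symm, Set.finite_singleton b⟩))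
    hc2 V (hA.trans hV1) hV2
  obtain ⟨a, ha, hab⟩ := hb K hK1 hK2
  have hmem : a⁻¹ * b ∈ V := by
    refine hK3 _ ?_ hab
    exact Subgroup.mul_mem _ (Subgroup.inv_mem _ ((le_sup_left : A ≤ _) ha))
      ((le_sup_right : Subgroup.zpowers b ≤ _) (Subgroup.mem_zpowers b))
  apply hV3
  have := V.mul_mem (hV1 ha) hmem
  simpa using this

end Pool.Agent.Run7.h632.CA
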