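import Pool.Agent.Run7.h632.CA.ext

set_option autoImplicit false

namespace Pool.Agent.Run7.h632.CA

/-- representatives of the cosets -/
theorem reps {G : Type} [Group G] (A₀ A : Subgroup G) (h : FinIn A₀ A) :
    ∃ (r : ℕ) (a : Fin r → G), (∀ i, a i ∈ A) ∧ ∀ x ∈ A, ∃ i, (a i)⁻¹ * x ∈ A₀ := by
  have hfi : (A₀.subgroupOf A).FiniteIndex := ⟨h.2⟩
  have hfin : Finite (A ⧸ A₀.subgroupOf A) := inferInstance
  obtain ⟨r, ⟨e⟩⟩ := Finite.exists_equiv_fin (A ⧸ A₀.subgroupOf A)
  refine ⟨r, fun i => ((Quotient.out (e.symm i) : A) : G), fun i => (Quotient.out (e.symm i) : A).2, ?_⟩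
  intro x hx
  refine ⟨e (QuotientGroup.mk ⟨x, hx⟩), ?_⟩
  simp only [Equiv.symm_apply_apply]
  have := QuotientGroup.out_eq' (QuotientGroup.mk (s := A₀.subgroupOf A) ⟨x, hx⟩)
  rw [QuotientGroup.eq, Subgroup.mem_subgroupOf] at this
  exact this

theorem fg_of_finIn {G : Type} [Group G] (A₀ A : Subgroup G) (h : FinIn A₀ A) (hA : A.FG) :
    A₀.FG := by
  have hfi : (A₀.subgroupOf A).FiniteIndex := ⟨h.2⟩
  have : Group.FG A := (Group.fg_iff_subgroup_fg A).mpr hA
  have h2 : Group.FG (A₀.subgroupOf A) := inferInstance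
  have h3 : Group.FG A₀ := Group.fg_of_surjective (f := (Subgroup.subgroupOfEquivOfLe h.1).toMonoidHom)
    (Subgroup.subgroupOfEquivOfLe h.1).surjective
  exact (Group.fg_iff_subgroup_fg A₀).mp h3

theorem char_iInf {G : Type} [Group G] {ι : Type} (K : ι → Subgroup G)
    (h : ∀ i, (K i).Characteristic) : (⨅ i, K i).Characteristic := by
  rw [Subgroup.characteristic_iff_le_comap]
  intro φ
  rw [Subgroup.comap_iInf]
  exact iInf_mono fun i => (Subgroup.characteristic_iff_le_comap.mp (h i)) φ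

theorem char_inf {G : Type} [Group G] (K K' : Subgroup G)
    (h : K.Characteristic) (h' : K'.Characteristic) : (K ⊓ K').Characteristic := by
  rw [Subgroup.characteristic_iff_le_comap]
  intro φ
  rw [Subgroup.comap_inf]
  exact inf_le_inf ((Subgroup.characteristic_iff_le_comap.mp h) φ)
    ((Subgroup.characteristic_iff_le_comap.mp h') φ)

theorem final (h : S_csp) : S_final := by
  intro n hn A A₀ hI hf hfg hcomm
  have hfg₀ : A₀.FG := fg_of_finIn A₀ A hf hfg
  obtain ⟨r, a, haA, hrep⟩ := reps A₀ A hf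
  have hext := ext h n hn A₀ hI hfg₀ hcomm
  constructor
  · intro V hIV hV
    -- the case of `A₀`
    obtain ⟨K₀, hK1, hK2, hK3⟩ := h n hn A₀ hI hfg₀ hcomm (V ⊓ A₀) (le_inf hIV hI)
      ⟨inf_le_right, by
        rw [Subgroup.inf_relIndex_right]
        exact fun h0 => hV.2 (by
          have hd : V.relIndex A₀ ∣ V.relIndex A₀ * (A₀.relIndex A) := Dvd.intro _ rfl
          exact (Subgroup.relIndex_eq_zero_of_le_right hf.1 h0))⟩
    have hsep : ∀ i : Fin r, ∃ K : Subgroup (F n), K.Characteristic ∧ K.FiniteIndex ∧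
        ((a i)⁻¹ ∈ A₀ ∨ ¬ ∃ c ∈ A₀, InnerMod K (c⁻¹ * (a i)⁻¹)) := by
      intro i
      by_cases hi : (a i)⁻¹ ∈ A₀
      · exact ⟨⊤, inferInstance, inferInstance, Or.inl hi⟩
      · have := mt (hext (a i)⁻¹) hi
        push Not at this
        obtain ⟨K, hKc, hKf, hK⟩ := this
        refine ⟨K, hKc, hKf, Or.inr ?_⟩
        rintro ⟨c, hc, hcK⟩
        exact hK c hc hcK
    choose K hKc hKf hK using hsep
    refine ⟨K₀ ⊓ ⨅ i, K i, char_inf _ _ hK1 (char_iInf _ hKc), ?_, ?_⟩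
    · have : (⨅ i, K i).FiniteIndex := Subgroup.finiteIndex_iInf hKf
      infer_instance
    · intro x hx hxK
      obtain ⟨i, hi⟩ := hrep x hx
      have hai : (a i)⁻¹ ∈ A₀ := by
        rcases hK i with h1 | h1
        · exact h1
        · exfalso
          apply h1
          refine ⟨(a i)⁻¹ * x, hi, ?_⟩
          have h2 : InnerMod (K i) x := hxK.mono (inf_le_right.trans (iInf_le _ i))
          have h3 := (NK (K i) (hKc i)).inv_mem (mem_NK.mpr h2)
          have e : ((a i)⁻¹ * x)⁻¹ * (a i)⁻¹ = x⁻¹ := by group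
          rw [e]
          exact h3
      have hxA₀ : x ∈ A₀ := by
        have := A₀.mul_mem (A₀.inv_mem hai) hi
        have e : ((a i)⁻¹)⁻¹ * ((a i)⁻¹ * x) = x := by group
        rw [e] at this
        exact this
      exact (Subgroup.mem_inf.mp (hK3 x hxA₀ (hxK.mono inf_le_left))).1
  · intro b hb
    by_contra hbA
    have hsep : ∀ i : Fin r, ∃ K : Subgroup (F n), K.Characteristic ∧ K.FiniteIndex ∧
        ¬ ∃ c ∈ A₀, InnerMod K (c⁻¹ * ((a i)⁻¹ * b)) := by
      intro i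
      have hi : (a i)⁻¹ * b ∉ A₀ := by
        intro h0
        apply hbA
        have := A.mul_mem (haA i) (hf.1 h0)
        simpa using this
      have := mt (hext ((a i)⁻¹ * b)) hi
      push Not at this
      obtain ⟨K, hKc, hKf, hK⟩ := this
      refine ⟨K, hKc, hKf, ?_⟩
      rintro ⟨c, hc, hcK⟩
      exact hK c hc hcK
    choose K hKc hKf hK using hsep
    obtain ⟨x, hx, hxb⟩ := hb (⨅ i, K i) (char_iInf _ hKc) (Subgroup.finiteIndex_iInf hKf)
    obtain ⟨i, hi⟩ := hrep x hx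
    apply hK i
    refine ⟨(a i)⁻¹ * x, hi, ?_⟩
    have e : ((a i)⁻¹ * x)⁻¹ * ((a i)⁻¹ * b) = x⁻¹ * b := by group
    rw [e]
    exact hxb.mono (iInf_le _ i)

end Pool.Agent.Run7.h632.CA
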