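import Pool.Agent.Run7.h632.CA.Defs

set_option autoImplicit false

namespace Pool.Agent.Run7.h632.CA

/-! ### general lemmas (used by `gros`, `ext`, `final`) -/

theorem Inn_normal (G : Type) [Group G] : (Inn G).Normal := by
  constructor
  rintro _ ⟨w, rfl⟩ φ
  refine ⟨φ w, ?_⟩
  ext x
  simp [MulAut.conj_apply, MulAut.mul_apply]

theorem Inn_fg (n : ℕ) : (Inn (F n)).FG := by
  unfold Inn
  exact (Group.fg_iff_subgroup_fg _).mp inferInstance

/-- in a cyclic group a generator `≠ 1` is not in some subgroup of finite index -/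
theorem cyc_sep {Q : Type} [Group Q] (q : Q) (hq : ∀ x : Q, x ∈ Subgroup.zpowers q) (h1 : q ≠ 1) :
    ∃ W : Subgroup Q, W.FiniteIndex ∧ q ∉ W := by
  by_cases hfin : Finite Q
  · refine ⟨⊥, inferInstance, ?_⟩
    simpa using h1
  · have hinf : Infinite Q := not_finite_iff_infinite.mp hfin
    have hord : orderOf q = 0 := by
      by_contra hne
      apply hfin
      have hf : Finite (Subgroup.zpowers q) := by
        exact (finite_zpowers (a := q)).mpr
          (isOfFinOrder_iff_pow_eq_one.mpr ⟨orderOf q, Nat.pos_of_ne_zero hne, pow_orderOf_eq_one q⟩)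
      have htop : Subgroup.zpowers q = ⊤ := by
        ext x; simp [hq x]
      rw [htop] at hf
      exact Finite.of_equiv _ (Subgroup.topEquiv.toEquiv)
    refine ⟨Subgroup.zpowers (q ^ 2), ?_, ?_⟩
    · have hsurj : Function.Surjective
          (fun i : Fin 2 => (QuotientGroup.mk (q ^ (i : ℕ)) : Q ⧸ Subgroup.zpowers (q ^ 2))) := by
        intro y
        obtain ⟨x, rfl⟩ := QuotientGroup.mk_surjective y
        obtain ⟨k, rfl⟩ := Subgroup.mem_zpowers_iff.mp (hq x)
        refine ⟨⟨(k % 2).toNat, by omega⟩, ?_⟩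
        rw [QuotientGroup.eq]
        rw [Subgroup.mem_zpowers_iff]
        refine ⟨k / 2, ?_⟩
        have e1 : ((q ^ 2) ^ (k / 2) : Q) = q ^ (2 * (k / 2)) := by
          rw [zpow_mul]; norm_cast
        have e2 : (q ^ ((⟨(k % 2).toNat, by omega⟩ : Fin 2) : ℕ) : Q) = q ^ (k % 2) := by
          rw [← zpow_natCast]
          congr 1
          simp only
          omega
        rw [e1, e2, ← zpow_neg, ← zpow_add]
        congr 1
        omega
      have : Finite (Q ⧸ Subgroup.zpowers (q ^ 2)) := Finite.of_surjective _ hsurj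
      exact Subgroup.finiteIndex_of_finite_quotient
    · intro hmem
      obtain ⟨k, hk⟩ := Subgroup.mem_zpowers_iff.mp hmem
      have e1 : ((q ^ 2) ^ k : Q) = q ^ (2 * k) := by
        rw [zpow_mul]; norm_cast
      rw [e1] at hk
      have e3 : q ^ (2 * k - 1) = 1 := by
        rw [zpow_sub, hk]; simp
      have := orderOf_dvd_iff_zpow_eq_one.mpr e3
      rw [hord] at this
      simp at this
      omega

/-- if `b` normalises `A`, `b ∉ A`, then `b` is separated from `A` by a subgroup of finite index of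
the group generated by `A` and `b` -/
theorem sep_one {G : Type} [Group G] (A : Subgroup G) (b : G) (h1 : ∀ a ∈ A, b * a * b⁻¹ ∈ A)
    (h2 : ∀ a ∈ A, b⁻¹ * a * b ∈ A) (hb : b ∉ A) :
    ∃ V : Subgroup G, A ≤ V ∧ FinIn V (A ⊔ Subgroup.zpowers b) ∧ b ∉ V := by
  set H : Subgroup G := A ⊔ Subgroup.zpowers b with hH
  have hAH : A ≤ H := le_sup_left
  have hbH : b ∈ H := (le_sup_right : Subgroup.zpowers b ≤ H) (Subgroup.mem_zpowers b)
  have hbN : b ∈ Subgroup.normalizer (A : Set G) := by
    rw [Subgroup.mem_normalizer_iff]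
    intro x
    constructor
    · exact h1 x
    · intro hx
      have := h2 _ hx
      simpa [mul_assoc] using this
  have hHN : H ≤ Subgroup.normalizer (A : Set G) := by
    rw [hH]
    refine sup_le Subgroup.le_normalizer ?_
    rw [Subgroup.zpowers_le]
    exact hbN
  have hnorm : (A.subgroupOf H).Normal := by
    constructor
    intro a ha g
    rw [Subgroup.mem_subgroupOf] at ha ⊢
    have := (Subgroup.mem_normalizer_iff.mp (hHN g.2) (a : G)).mp ha
    simpa using this
  let b' : H := ⟨b, hbH⟩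
  have hgen : ∀ x : H ⧸ A.subgroupOf H, x ∈ Subgroup.zpowers (QuotientGroup.mk b' : H ⧸ A.subgroupOf H) := by
    intro x
    obtain ⟨x, rfl⟩ := QuotientGroup.mk_surjective x
    have hle : A ⊔ Subgroup.zpowers b ≤ ((Subgroup.zpowers (QuotientGroup.mk' (A.subgroupOf H) b')).comap
        (QuotientGroup.mk' (A.subgroupOf H))).map H.subtype := by
      refine sup_le ?_ ?_
      · intro a ha
        refine ⟨⟨a, hAH ha⟩, ?_, rfl⟩
        rw [SetLike.mem_coe, Subgroup.mem_comap]
        have : QuotientGroup.mk' (A.subgroupOf H) ⟨a, hAH ha⟩ = 1 := by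
          rw [QuotientGroup.mk'_apply, QuotientGroup.eq_one_iff, Subgroup.mem_subgroupOf]
          exact ha
        rw [this]
        exact Subgroup.one_mem _
      · rw [Subgroup.zpowers_le]
        refine ⟨b', ?_, rfl⟩
        rw [SetLike.mem_coe, Subgroup.mem_comap]
        exact Subgroup.mem_zpowers _
    obtain ⟨y, hy, hxy⟩ := hle x.2
    have hxy' : y = x := Subtype.ext hxy
    rw [hxy'] at hy
    exact hy
  have hne : (QuotientGroup.mk b' : H ⧸ A.subgroupOf H) ≠ 1 := by
    intro h
    rw [QuotientGroup.eq_one_iff, Subgroup.mem_subgroupOf] at h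
    exact hb h
  obtain ⟨W, hW, hbW⟩ := cyc_sep _ hgen hne
  refine ⟨(W.comap (QuotientGroup.mk' (A.subgroupOf H))).map H.subtype, ?_, ⟨?_, ?_⟩, ?_⟩
  · intro a ha
    refine ⟨⟨a, hAH ha⟩, ?_, rfl⟩
    rw [SetLike.mem_coe, Subgroup.mem_comap]
    have : QuotientGroup.mk' (A.subgroupOf H) ⟨a, hAH ha⟩ = 1 := by
      rw [QuotientGroup.mk'_apply, QuotientGroup.eq_one_iff, Subgroup.mem_subgroupOf]
      exact ha
    rw [this]
    exact Subgroup.one_mem _
  · rintro _ ⟨y, _, rfl⟩
    exact y.2
  · unfold Subgroup.relIndex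
    have e : ((W.comap (QuotientGroup.mk' (A.subgroupOf H))).map H.subtype).subgroupOf H =
        W.comap (QuotientGroup.mk' (A.subgroupOf H)) := by
      unfold Subgroup.subgroupOf
      exact Subgroup.comap_map_eq_self_of_injective (Subgroup.subtype_injective H) _
    rw [e, Subgroup.index_comap_of_surjective _ (QuotientGroup.mk'_surjective _)]
    exact hW.index_ne_zero
  · rintro ⟨y, hy, hyb⟩
    apply hbW
    have : y = b' := Subtype.ext hyb
    rw [this] at hy
    exact hy

/-- `A ⊔ ⟨b⟩` is abelian modulo `Inn` if `A` is and `b` commutes with `A` modulo `Inn` -/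
theorem comm_mod {G : Type} [Group G] (N : Subgroup G) [N.Normal] (A : Subgroup G) (b : G)
    (hA : ∀ a ∈ A, ∀ c ∈ A, a * c * a⁻¹ * c⁻¹ ∈ N) (hb : ∀ c ∈ A, b * c * b⁻¹ * c⁻¹ ∈ N) :
    ∀ a ∈ A ⊔ Subgroup.zpowers b, ∀ c ∈ A ⊔ Subgroup.zpowers b, a * c * a⁻¹ * c⁻¹ ∈ N := by
  have key : ∀ a c : G, a * c * a⁻¹ * c⁻¹ ∈ N ↔
      (QuotientGroup.mk' N a) * (QuotientGroup.mk' N c) = (QuotientGroup.mk' N c) * (QuotientGroup.mk' N a) := by
    intro a c
    rw [← map_mul, ← map_mul, QuotientGroup.mk'_apply, QuotientGroup.mk'_apply, eq_comm, QuotientGroup.eq]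
    constructor
    · intro h
      have := Subgroup.Normal.conj_mem (inferInstance : N.Normal) _ h (a * c)⁻¹
      have e : (a * c)⁻¹ * (a * c * a⁻¹ * c⁻¹) * ((a * c)⁻¹)⁻¹ = (c * a)⁻¹ * (a * c) := by group
      rw [e] at this
      exact this
    · intro h
      have := Subgroup.Normal.conj_mem (inferInstance : N.Normal) _ h (c * a)
      have e : (c * a) * ((c * a)⁻¹ * (a * c)) * (c * a)⁻¹ = a * c * a⁻¹ * c⁻¹ := by group
      rw [e] at this
      exact this
  simp only [key] at hA hb ⊢
  set f := QuotientGroup.mk' N with hf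
  -- the centraliser argument
  have s1 : A ⊔ Subgroup.zpowers b ≤ (Subgroup.centralizer ((A.map f : Subgroup _) : Set _)).comap f := by
    refine sup_le ?_ ?_
    · intro a ha
      rw [Subgroup.mem_comap, Subgroup.mem_centralizer_iff]
      rintro _ ⟨c, hc, rfl⟩
      exact hA c hc a ha
    · rw [Subgroup.zpowers_le, Subgroup.mem_comap, Subgroup.mem_centralizer_iff]
      rintro _ ⟨c, hc, rfl⟩
      exact (hb c hc).symm
  have s2 : A ⊔ Subgroup.zpowers b ≤ (Subgroup.centralizer (((A ⊔ Subgroup.zpowers b).map f : Subgroup _) : Set _)).comap f := by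
    refine sup_le ?_ ?_
    · intro a ha
      rw [Subgroup.mem_comap, Subgroup.mem_centralizer_iff]
      rintro _ ⟨c, hc, rfl⟩
      have := s1 hc
      rw [Subgroup.mem_comap, Subgroup.mem_centralizer_iff] at this
      exact (this (f a) ⟨a, ha, rfl⟩).symm
    · rw [Subgroup.zpowers_le, Subgroup.mem_comap, Subgroup.mem_centralizer_iff]
      rintro _ ⟨c, hc, rfl⟩
      have hle : A ⊔ Subgroup.zpowers b ≤ (Subgroup.centralizer {f b}).comap f := by
        refine sup_le ?_ ?_
        · intro a ha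
          rw [Subgroup.mem_comap, Subgroup.mem_centralizer_iff]
          intro y hy
          rw [Set.mem_singleton_iff] at hy
          rw [hy]
          exact hb a ha
        · rw [Subgroup.zpowers_le, Subgroup.mem_comap, Subgroup.mem_centralizer_iff]
          intro y hy
          rw [Set.mem_singleton_iff] at hy
          rw [hy]
      have := hle hc
      rw [Subgroup.mem_comap, Subgroup.mem_centralizer_iff] at this
      exact (this (f b) rfl).symm
  intro a ha c hc
  have := s2 ha
  rw [Subgroup.mem_comap, Subgroup.mem_centralizer_iff] at this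
  exact (this (f c) ⟨c, hc, rfl⟩).symm

theorem gros (h : S_csp) : S_gros := by
  intro n hn φ hφ
  by_contra hni
  have hN := Inn_normal (F n)
  obtain ⟨V, hV1, hV2, hV3⟩ := sep_one (Inn (F n)) φ
    (fun a ha => hN.conj_mem a ha φ)
    (fun a ha => by simpa using hN.conj_mem a ha φ⁻¹) hni
  have hcomm := comm_mod (Inn (F n)) (Inn (F n)) φ
    (fun a ha c hc => Subgroup.mul_mem _ (Subgroup.mul_mem _ (Subgroup.mul_mem _ ha hc)
      (Subgroup.inv_mem _ ha)) (Subgroup.inv_mem _ hc))
    (fun c hc => Subgroup.mul_mem _ (hN.conj_mem c hc φ) (Subgroup.inv_mem _ hc))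
  obtain ⟨K, hK1, hK2, hK3⟩ := h n hn (Inn (F n) ⊔ Subgroup.zpowers φ) le_sup_left
    ((Inn_fg n).sup ((Subgroup.fg_iff _).mpr ⟨{φ}, (Subgroup.zpowers_eq_closure φ).symm, Set.finite_singleton φ⟩))
    hcomm V hV1 hV2
  exact hV3 (hK3 φ ((le_sup_right : Subgroup.zpowers φ ≤ _) (Subgroup.mem_zpowers φ)) (hφ K hK1 hK2))

end Pool.Agent.Run7.h632.CA
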