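import Pool.Agent.Run7.h632.CA.uniq

set_option autoImplicit false

namespace Pool.Agent.Run7.h632.CA


theorem coeff_mul_congr_right {n : ℕ} (f a b : P n) (m : ℕ)
    (h : ∀ i ≤ m, PowerSeries.coeff i a = PowerSeries.coeff i b) :
    PowerSeries.coeff m (f * a) = PowerSeries.coeff m (f * b) := by
  rw [PowerSeries.coeff_mul, PowerSeries.coeff_mul]
  refine Finset.sum_congr rfl ?_
  rintro ⟨x, y⟩ hxy
  rw [Finset.HasAntidiagonal.mem_antidiagonal] at hxy
  simp only at hxy ⊢
  rw [h y (by omega)]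

theorem coeff_mul_congr_left {n : ℕ} (f a b : P n) (m : ℕ)
    (h : ∀ i ≤ m, PowerSeries.coeff i a = PowerSeries.coeff i b) :
    PowerSeries.coeff m (a * f) = PowerSeries.coeff m (b * f) := by
  rw [PowerSeries.coeff_mul, PowerSeries.coeff_mul]
  refine Finset.sum_congr rfl ?_
  rintro ⟨x, y⟩ hxy
  rw [Finset.HasAntidiagonal.mem_antidiagonal] at hxy
  simp only at hxy ⊢
  rw [h x (by omega)]

theorem Deg.sub {n j : ℕ} {x y : T n} (hx : Deg j x) (hy : Deg j y) : Deg j (x - y) := by
  intro m hm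
  by_cases h : x.coeff m = 0
  · apply hy
    intro h'
    apply hm
    rw [MonoidAlgebra.coeff_sub, Finsupp.sub_apply, h, h', sub_zero]
  · exact hx m h

theorem Hom.sub {n : ℕ} {f g : P n} (hf : Hom f) (hg : Hom g) : Hom (f - g) := by
  intro j
  rw [map_sub]
  exact (hf j).sub (hg j)

theorem lim (h_uniq : S_uniq) (h_grp : S_grp) : S_lim := by
  intro n hn φ hφ
  choose h hHom h0 hc using hφ
  have h1 : ∀ g, PowerSeries.coeff 1 (mu n (φ g)) = PowerSeries.coeff 1 (mu n g) :=
    (h_grp n).2.2.2.2 1 φ le_rfl ⟨h 1, hHom 1, h0 1, hc 1⟩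
  have key : ∀ j c, j < c → PowerSeries.coeff j (h c) = PowerSeries.coeff j (h (j + 1)) := by
    intro j c hjc
    have := h_uniq n hn (j + 1) φ (h c - h (j + 1)) h1 ((hHom c).sub (hHom (j + 1)))
      (by rw [map_sub, h0, h0, sub_self]) (by
        intro g i hi
        rw [mul_sub, sub_mul, map_sub, map_sub, hc c g i (by omega), hc (j + 1) g i hi]) j
      (by omega)
    rw [map_sub] at this
    exact sub_eq_zero.1 this
  refine ⟨PowerSeries.mk fun j => PowerSeries.coeff j (h (j + 1)), ?_, ?_, ?_⟩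
  · intro j
    rw [PowerSeries.coeff_mk]
    exact hHom _ j
  · rw [PowerSeries.coeff_mk]
    exact h0 1
  · intro g
    ext1 m
    have e : ∀ i ≤ m, PowerSeries.coeff i (PowerSeries.mk fun j => PowerSeries.coeff j (h (j + 1)))
        = PowerSeries.coeff i (h (m + 1)) := by
      intro i hi
      rw [PowerSeries.coeff_mk, key i (m + 1) (by omega)]
    rw [coeff_mul_congr_right _ _ _ m e, coeff_mul_congr_left _ _ _ m e, hc (m + 1) g m (by omega)]

end Pool.Agent.Run7.h632.CA
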