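import Pool.Agent.Run7.h632.CA.Defs

set_option autoImplicit false

namespace Pool.Agent.Run7.h632.CA


/-- the coefficient of `t ^ (j+1)` of a product, if the second factor has order at least `j` -/
theorem coeff_mul_low {n : ℕ} (f d : P n) (j : ℕ) (hd : ∀ b < j, PowerSeries.coeff b d = 0) :
    PowerSeries.coeff (j + 1) (f * d) = PowerSeries.coeff 0 f * PowerSeries.coeff (j + 1) d +
      PowerSeries.coeff 1 f * PowerSeries.coeff j d := by
  rw [PowerSeries.coeff_mul, Finset.Nat.sum_antidiagonal_succ]
  congr 1
  rw [Finset.sum_eq_single (0, j)]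
  · rintro ⟨a, b⟩ hab hne
    rw [Finset.HasAntidiagonal.mem_antidiagonal] at hab
    have hb : b < j := by
      rcases Nat.lt_or_ge b j with h | h
      · exact h
      · exfalso
        apply hne
        simp only [Prod.mk.injEq]
        simp only at hab
        omega
    simp only
    rw [hd b hb, mul_zero]
  · intro h
    exact absurd (Finset.HasAntidiagonal.mem_antidiagonal.2 (by simp)) h

/-- the coefficient of `t ^ (j+1)` of a product, if the first factor has order at least `j` -/
theorem coeff_mul_low' {n : ℕ} (f d : P n) (j : ℕ) (hd : ∀ b < j, PowerSeries.coeff b d = 0) :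
    PowerSeries.coeff (j + 1) (d * f) = PowerSeries.coeff (j + 1) d * PowerSeries.coeff 0 f +
      PowerSeries.coeff j d * PowerSeries.coeff 1 f := by
  rw [PowerSeries.coeff_mul, Finset.Nat.sum_antidiagonal_succ']
  congr 1
  rw [Finset.sum_eq_single (j, 0)]
  · rintro ⟨b, a⟩ hab hne
    rw [Finset.HasAntidiagonal.mem_antidiagonal] at hab
    have hb : b < j := by
      rcases Nat.lt_or_ge b j with h | h
      · exact h
      · exfalso
        apply hne
        simp only [Prod.mk.injEq]
        simp only at hab
        omega
    simp only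
    rw [hd b hb, zero_mul]
  · intro h
    exact absurd (Finset.HasAntidiagonal.mem_antidiagonal.2 (by simp)) h

theorem uniq (h_cen : S_cen) (h_mu1 : S_mu1) : S_uniq := by
  intro n hn c φ d h1 hd hd0 hcomm j
  induction j using Nat.strong_induction_on with
  | _ j ih =>
    intro hj
    rcases Nat.eq_zero_or_pos j with rfl | hjpos
    · exact hd0
    have hlow : ∀ b < j, PowerSeries.coeff b d = 0 := fun b hb => ih b hb (by omega)
    apply h_cen n hn j _ hjpos (hd j)
    intro i
    have h2 := hcomm (FreeGroup.of i) (j + 1) (by omega)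
    rw [coeff_mul_low _ _ _ hlow, coeff_mul_low' _ _ _ hlow, (h_mu1 n _).2, (h_mu1 n _).2, h1,
      one_mul, mul_one] at h2
    have h3 : PowerSeries.coeff 1 (mu n (FreeGroup.of i)) = X i := by
      have : mu n (FreeGroup.of i) = 1 + PowerSeries.C (X i) * PowerSeries.X := by
        simp [mu, U]
      rw [this, map_add, PowerSeries.coeff_one, PowerSeries.coeff_C_mul]
      simp
    rw [h3] at h2
    exact add_left_cancel h2

end Pool.Agent.Run7.h632.CA
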